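import Pool.Agent.Work.MP_697f4c_co.Count2
import Pool.Agent.Work.MP_697f4c_co.Toric

/-!
MP_697f4c_co: an explicit Markov basis for surveys with fixed first-order summary, for all `p`,
consisting of cycle moves (degree two) and arc moves (degree three), with linearly many steps and
polynomially many moves at every survey.
-/

open Equiv Finset Birk

namespace Pool.Agent.Results.MP_697f4c_co.ArcBasis

/-- A ranking of `p` candidates: candidate `i` is placed in position `σ i`. -/
abbrev Ranking (p : ℕ) := Perm (Fin p)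

/-- A survey: `f σ` voters gave the ranking `σ`. -/
abbrev Survey (p : ℕ) := Ranking p → ℕ

/-- The number of voters. -/
def voters {p : ℕ} (f : Survey p) : ℕ := ∑ σ, f σ

/-- The number of ballots of `f` which are not ballots of `f'`. -/
def dist {p : ℕ} (f f' : Survey p) : ℕ := ∑ σ, (f σ - f' σ)

/-- The first-order summary. -/
def summary {p : ℕ} (f : Survey p) (i j : Fin p) : ℕ := ∑ σ : Ranking p, if σ i = j then f σ else 0

/-- A move: an integer function with vanishing first-order summary. -/
def IsMove {p : ℕ} (g : Ranking p → ℤ) : Prop :=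
  ∀ i j, ∑ σ : Ranking p, (if σ i = j then g σ else 0) = 0

/-- The difference of two surveys. -/
def diff {p : ℕ} (f f' : Survey p) : Ranking p → ℤ := fun σ => (f' σ : ℤ) - f σ

/-- A Markov basis: a finite set of moves which joins any two surveys with the same summary. -/
def IsMarkovBasis {p : ℕ} (B : Set (Ranking p → ℤ)) : Prop :=
  B.Finite ∧ (∀ g ∈ B, IsMove g) ∧ ∀ f f' : Survey p, summary f = summary f' →
    ∃ (k : ℕ) (F : ℕ → Survey p), F 0 = f ∧ F k = f' ∧
      ∀ t < k, diff (F t) (F (t + 1)) ∈ B ∨ diff (F (t + 1)) (F t) ∈ B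

/-- The survey with the ballots in `W`. -/
def ballots {p : ℕ} (W : Multiset (Ranking p)) : Survey p := fun σ => W.count σ

/-- Cycle move `a, b → a', b'`: every candidate keeps its two positions, and `a'` arises from `a`
by one cycle. -/
def CycleMove {p : ℕ} (a b a' b' : Ranking p) : Prop :=
  (∀ i, ({a' i, b' i} : Multiset (Fin p)) = {a i, b i}) ∧ (a⁻¹ * a').IsCycle

/-- The ranking `r` takes every candidate other than `x` to its position in `a` or in `b`, and
agrees with `a` outside of the cycle of `a⁻¹ b` through `x`. -/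
def Between {p : ℕ} (a b r : Ranking p) (x : Fin p) : Prop :=
  (∀ i, i ≠ x → r i = a i ∨ r i = b i) ∧ ∀ i, ¬ (a⁻¹ * b).SameCycle x i → r i = a i

/-- Arc move `a, b, s → a', b', s'`. -/
def ArcMove {p : ℕ} (a b s a' b' s' : Ranking p) : Prop :=
  (∀ i, ({a i, b i, s i} : Multiset (Fin p)) = {a' i, b' i, s' i}) ∧
  ∃ (r r' : Ranking p) (x y : Fin p), x ≠ y ∧ Between a b r x ∧ Between a' b' r' x ∧
    ({a y, b y} : Multiset (Fin p)) = {r x, r y} ∧ s y ≠ r x ∧ s y ≠ r y ∧
    r' x = s y ∧ s' x = s x ∧ ({r' y, s' y} : Multiset (Fin p)) = {r x, r y} ∧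
    (∀ i, i ≠ x → i ≠ y → ({r' i, s' i} : Multiset (Fin p)) = {r i, s i}) ∧ (s⁻¹ * s').IsCycle

/-- One step: two or three ballots of the survey `f` are replaced by a cycle move or an arc
move. -/
def Step {p : ℕ} (f f' : Survey p) : Prop :=
  f ≠ f' ∧
  ((∃ (w : Survey p) (a b a' b' : Ranking p), CycleMove a b a' b' ∧
      f = w + ballots {a, b} ∧ f' = w + ballots {a', b'}) ∨
   (∃ (w : Survey p) (a b s a' b' s' : Ranking p), ArcMove a b s a' b' s' ∧
      f = w + ballots {a, b, s} ∧ f' = w + ballots {a', b', s'}))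

/-- The set of the cycle moves and the arc moves, as integer functions on the rankings. -/
def basis (p : ℕ) : Set (Ranking p → ℤ) :=
  {g | g ≠ 0 ∧
    ((∃ a b a' b' : Ranking p, CycleMove a b a' b' ∧
        g = diff (ballots {a, b}) (ballots {a', b'})) ∨
     (∃ a b s a' b' s' : Ranking p, ArcMove a b s a' b' s' ∧
        g = diff (ballots {a, b, s}) (ballots {a', b', s'})))}

/-! ### Conversions -/

theorem cyc_iff {p : ℕ} (a b a' b' : Ranking p) : CycleMove a b a' b' ↔ CycMv a b a' b' := by
  unfold CycleMove CycMv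
  constructor
  · rintro ⟨h1, h2⟩
    refine ⟨fun x y => sum_of_up (fun x => (up_iff _ _ _ _).1 (h1 x)) x y, h2⟩
  · rintro ⟨h1, h2⟩
    exact ⟨fun x => (up_iff _ _ _ _).2 (up_of_sum (h1 x)), h2⟩

theorem arc_iff {p : ℕ} (a b s a' b' s' : Ranking p) :
    ArcMove a b s a' b' s' ↔ ArcMv a b s a' b' s' := by
  unfold ArcMove ArcMv Between Can
  simp only [up_iff, sum3_iff]

theorem cnt2 {p : ℕ} (W : Multiset (Ranking p)) (a b : Ranking p) :
    ballots (a ::ₘ b ::ₘ W) = ballots W + ballots {a, b} := by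
  funext σ
  show Multiset.count σ (a ::ₘ b ::ₘ W) = Multiset.count σ W + Multiset.count σ {a, b}
  simp only [Multiset.insert_eq_cons, Multiset.count_cons, Multiset.count_singleton]
  ring

theorem cnt3 {p : ℕ} (W : Multiset (Ranking p)) (a b s : Ranking p) :
    ballots (a ::ₘ b ::ₘ s ::ₘ W) = ballots W + ballots {a, b, s} := by
  funext σ
  show Multiset.count σ (a ::ₘ b ::ₘ s ::ₘ W) = Multiset.count σ W + Multiset.count σ {a, b, s}
  simp only [Multiset.insert_eq_cons, Multiset.count_cons, Multiset.count_singleton]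
  ring

theorem step_of_rm {p : ℕ} {U V : Multiset (Ranking p)} (h : Rm U V) (hne : U ≠ V) :
    Step (ballots U) (ballots V) := by
  refine ⟨?_, ?_⟩
  · intro h2
    apply hne
    apply cnt_inj
    intro σ
    exact congrFun h2 σ
  · rcases h with ⟨W, a, b, a', b', h1, rfl, rfl⟩ | ⟨W, a, b, s, a', b', s', h1, rfl, rfl⟩
    · left
      exact ⟨ballots W, a, b, a', b', (cyc_iff _ _ _ _).2 h1, cnt2 _ _ _, cnt2 _ _ _⟩
    · right
      exact ⟨ballots W, a, b, s, a', b', s', (arc_iff _ _ _ _ _ _).2 h1, cnt3 _ _ _ _,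
        cnt3 _ _ _ _⟩

theorem path_of_reach {p n : ℕ} {U V : Multiset (Ranking p)} (h : Reach Rm n U V) :
    ∃ k ≤ n, ∃ F : ℕ → Survey p, F 0 = ballots U ∧ F k = ballots V ∧
      ∀ t < k, Step (F t) (F (t + 1)) := by
  induction h with
  | refl n u => exact ⟨0, Nat.zero_le _, fun _ => ballots u, rfl, rfl, fun t ht => absurd ht (by omega)⟩
  | @step n u v w hr _ ih =>
    obtain ⟨k, hk, F, h0, hk2, hF⟩ := ih
    by_cases huv : u = v
    · rw [huv]; exact ⟨k, by omega, F, h0, hk2, hF⟩
    · refine ⟨k + 1, by omega, fun t => Nat.casesOn t (ballots u) fun m => F m, rfl, hk2, ?_⟩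
      intro t ht
      cases t with
      | zero =>
        show Step (ballots u) (F 0)
        rw [h0]
        exact step_of_rm hr huv
      | succ m =>
        show Step (F m) (F (m + 1))
        exact hF m (by omega)

theorem voters_eq {p : ℕ} (o : Fin p) (f : Survey p) : voters f = ∑ j, summary f o j := by
  unfold voters summary
  rw [sum_comm]
  refine sum_congr rfl fun σ _ => ?_
  simp

theorem tot_ms {p : ℕ} (f : Survey p) (i j : Fin p) : tot (ms f) i j = (summary f i j : ℤ) := by
  rw [tot_eq_sum]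
  unfold summary
  push_cast
  refine sum_congr rfl fun σ _ => ?_
  rw [count_ms]

theorem paths {p : ℕ} (hp : 1 ≤ p) (f f' : Survey p) (h : summary f = summary f') :
    ∃ k ≤ (dist f f' - 1) * (p - 2), ∃ F : ℕ → Survey p, F 0 = f ∧ F k = f' ∧
      ∀ t < k, Step (F t) (F (t + 1)) := by
  have o : Fin p := ⟨0, by omega⟩
  have hv : voters f = voters f' := by rw [voters_eq o, voters_eq o, h]
  -- the common ballots
  set c : Survey p := fun σ => min (f σ) (f' σ) with hc
  set u : Survey p := fun σ => f σ - f' σ with hu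
  set v : Survey p := fun σ => f' σ - f σ with hv'
  have e1 : c + u = f := by
    funext σ
    show min (f σ) (f' σ) + (f σ - f' σ) = f σ
    omega
  have e2 : c + v = f' := by
    funext σ
    show min (f σ) (f' σ) + (f' σ - f σ) = f' σ
    omega
  have e3 : voters c + voters u = voters f := by
    rw [← e1]
    unfold voters
    rw [← sum_add_distrib]
    rfl
  have e4 : voters c + voters v = voters f' := by
    rw [← e2]
    unfold voters
    rw [← sum_add_distrib]
    rfl
  have add : ∀ (g g' : Survey p) (i j : Fin p), summary (g + g') i j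
      = summary g i j + summary g' i j := by
    intro g g' i j
    unfold summary
    rw [← sum_add_distrib]
    refine sum_congr rfl fun σ _ => ?_
    by_cases hσ : σ i = j
    · simp only [hσ, if_true]; rfl
    · simp only [hσ, if_false]
  have e5 : ∀ i j, summary u i j = summary v i j := by
    intro i j
    have h1 := congrFun (congrFun h i) j
    rw [← e1, ← e2, add, add] at h1
    omega
  have h1 := conn o (voters u) (ms u) (ms v) (card_ms u) (by rw [card_ms]; show voters v = _; omega)
    (fun i j => by rw [tot_ms, tot_ms, e5])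
  rw [Fintype.card_fin] at h1
  have h2 := path_of_reach (h1.add (ms c))
  have h3 : ∀ g : Survey p, ballots (ms c + ms g) = c + g := by
    intro g
    funext σ
    show Multiset.count σ (ms c + ms g) = c σ + g σ
    rw [Multiset.count_add, count_ms, count_ms]
  rw [h3, h3, e1, e2] at h2
  exact h2

theorem isMove_of_tot {p : ℕ} (U V : Multiset (Ranking p)) (h : ∀ i j, tot U i j = tot V i j) :
    IsMove (diff (ballots U) (ballots V)) := by
  intro i j
  have h1 := h i j
  rw [tot_eq_sum, tot_eq_sum] at h1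
  have e : ∀ σ : Ranking p, (if σ i = j then diff (ballots U) (ballots V) σ else 0)
      = (if σ i = j then (V.count σ : ℤ) else 0) - (if σ i = j then (U.count σ : ℤ) else 0) := by
    intro σ
    by_cases hσ : σ i = j
    · simp only [hσ, if_true]; rfl
    · simp only [hσ, if_false, sub_zero]
  rw [sum_congr rfl fun σ _ => e σ, sum_sub_distrib, h1, sub_self]

theorem diff_add {p : ℕ} (w u v : Survey p) : diff (w + u) (w + v) = diff u v := by
  funext σ
  show ((w σ + v σ : ℕ) : ℤ) - ((w σ + u σ : ℕ) : ℤ) = (v σ : ℤ) - u σ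
  push_cast
  ring

theorem diff_ne {p : ℕ} {f f' : Survey p} (h : f ≠ f') : diff f f' ≠ 0 := by
  intro h2
  apply h
  funext σ
  have h3 : (f' σ : ℤ) - f σ = 0 := congrFun h2 σ
  omega

theorem mem_basis {p : ℕ} {f f' : Survey p} (h : Step f f') : diff f f' ∈ basis p := by
  obtain ⟨hne, ⟨w, a, b, a', b', h1, h2, h3⟩ | ⟨w, a, b, s, a', b', s', h1, h2, h3⟩⟩ := h
  · refine ⟨diff_ne hne, Or.inl ⟨a, b, a', b', h1, ?_⟩⟩
    rw [h2, h3, diff_add]
  · refine ⟨diff_ne hne, Or.inr ⟨a, b, s, a', b', s', h1, ?_⟩⟩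
    rw [h2, h3, diff_add]

theorem basis_finite (p : ℕ) : (basis p).Finite := by
  have h1 : (Set.range fun t : Ranking p × Ranking p × Ranking p × Ranking p =>
      diff (ballots {t.1, t.2.1}) (ballots {t.2.2.1, t.2.2.2})).Finite := Set.finite_range _
  have h2 : (Set.range fun t : Ranking p × Ranking p × Ranking p × Ranking p × Ranking p ×
      Ranking p => diff (ballots {t.1, t.2.1, t.2.2.1})
        (ballots {t.2.2.2.1, t.2.2.2.2.1, t.2.2.2.2.2})).Finite := Set.finite_range _
  refine (h1.union h2).subset ?_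
  rintro g ⟨-, ⟨a, b, a', b', -, rfl⟩ | ⟨a, b, s, a', b', s', -, rfl⟩⟩
  · left; exact ⟨(a, b, a', b'), rfl⟩
  · right; exact ⟨(a, b, s, a', b', s'), rfl⟩

theorem basis_move {p : ℕ} {g : Ranking p → ℤ} (hg : g ∈ basis p) : IsMove g := by
  obtain ⟨-, ⟨a, b, a', b', h, rfl⟩ | ⟨a, b, s, a', b', s', h, rfl⟩⟩ := hg
  · apply isMove_of_tot
    intro i j
    have := ((cyc_iff _ _ _ _).1 h).1 i j
    simpa [tot] using this
  · apply isMove_of_tot
    intro i j
    have := ((arc_iff _ _ _ _ _ _).1 h).1 i j
    simpa [tot, add_assoc] using this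

/-! ### Counting -/

/-- the rankings with at least one voter -/
def supp {p : ℕ} (f : Survey p) : Finset (Ranking p) := univ.filter fun σ => f σ ≠ 0

theorem supp_card {p : ℕ} (f : Survey p) : (supp f).card ≤ voters f := by
  unfold supp voters
  rw [card_eq_sum_ones]
  refine le_trans ?_ (sum_le_sum_of_subset (subset_univ (univ.filter fun σ => f σ ≠ 0)))
  refine sum_le_sum fun σ hσ => ?_
  simp only [mem_filter, mem_univ, true_and] at hσ
  omega

theorem mem_supp {p : ℕ} {w : Survey p} {W : Multiset (Ranking p)} {σ : Ranking p}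
    (h : σ ∈ W) : σ ∈ supp (w + ballots W) := by
  unfold supp
  simp only [mem_filter, mem_univ, true_and]
  have : 0 < Multiset.count σ W := Multiset.count_pos.2 h
  show w σ + Multiset.count σ W ≠ 0
  omega

/-- choice of one of two -/
def pick {α : Type*} (c : Bool) (u v : α) : α := if c then u else v

theorem pick_of {α : Type*} {u v w : α} (h : w = u ∨ w = v) : ∃ c, pick c u v = w := by
  rcases h with h | h
  · exact ⟨true, h.symm⟩
  · exact ⟨false, h.symm⟩

theorem cyc_count {p : ℕ} (f : Survey p) :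
    {f' : Survey p | ∃ (w : Survey p) (a b a' b' : Ranking p), CycleMove a b a' b' ∧
      f = w + ballots {a, b} ∧ f' = w + ballots {a', b'}}.Finite ∧
    {f' : Survey p | ∃ (w : Survey p) (a b a' b' : Ranking p), CycleMove a b a' b' ∧
      f = w + ballots {a, b} ∧ f' = w + ballots {a', b'}}.ncard ≤ voters f ^ 2 * p := by
  have h := cover_card (S := {f' : Survey p | ∃ (w : Survey p) (a b a' b' : Ranking p),
      CycleMove a b a' b' ∧ f = w + ballots {a, b} ∧ f' = w + ballots {a', b'}})
    (supp f ×ˢ supp f ×ˢ (univ : Finset (Fin p)))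
    (fun t f' => ∃ (w : Survey p) (a' b' : Ranking p), CycleMove t.1 t.2.1 a' b' ∧
      a' t.2.2 ≠ t.1 t.2.2 ∧ f = w + ballots {t.1, t.2.1} ∧ f' = w + ballots {a', b'}) (by
      rintro ⟨a, b, x⟩ f1 f2 ⟨w1, a1, b1, h1, m1, e1, g1⟩ ⟨w2, a2, b2, h2, m2, e2, g2⟩
      have hu := cyc_unique ((cyc_iff _ _ _ _).1 h1) ((cyc_iff _ _ _ _).1 h2) m1 m2
      have hw : w1 = w2 := by rw [e1] at e2; exact add_right_cancel e2
      rw [g1, g2, hu.1, hu.2, hw]) (by
      rintro f' ⟨w, a, b, a', b', h1, e1, g1⟩
      obtain ⟨x, hx, -⟩ := h1.2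
      refine ⟨(a, b, x), ?_, w, a', b', h1, ?_, e1, g1⟩
      · rw [mem_product, mem_product]
        refine ⟨?_, ?_, mem_univ _⟩
        · rw [e1]; exact mem_supp (by simp)
        · rw [e1]; exact mem_supp (by simp)
      · intro h2
        apply hx
        rw [Perm.mul_apply, h2]
        simp)
  refine ⟨h.1, h.2.trans ?_⟩
  rw [card_product, card_product, card_univ, Fintype.card_fin]
  have := supp_card f
  calc (supp f).card * ((supp f).card * p) ≤ voters f * (voters f * p) := by gcongr
    _ = voters f ^ 2 * p := by ring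

theorem arc_count {p : ℕ} (f : Survey p) :
    {f' : Survey p | ∃ (w : Survey p) (a b s a' b' s' : Ranking p), ArcMove a b s a' b' s' ∧
      f = w + ballots {a, b, s} ∧ f' = w + ballots {a', b', s'}}.Finite ∧
    {f' : Survey p | ∃ (w : Survey p) (a b s a' b' s' : Ranking p), ArcMove a b s a' b' s' ∧
      f = w + ballots {a, b, s} ∧ f' = w + ballots {a', b', s'}}.ncard
      ≤ 4 * voters f ^ 3 * p ^ 2 := by
  have h := cover_card (S := {f' : Survey p | ∃ (w : Survey p) (a b s a' b' s' : Ranking p),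
      ArcMove a b s a' b' s' ∧ f = w + ballots {a, b, s} ∧ f' = w + ballots {a', b', s'}})
    (supp f ×ˢ supp f ×ˢ supp f ×ˢ (univ : Finset (Fin p × Fin p × Bool × Bool)))
    (fun t f' => ∃ (w : Survey p) (a' b' s' r r' : Ranking p),
      (∀ i j, pm t.1 i j + pm t.2.1 i j + pm t.2.2.1 i j = pm a' i j + pm b' i j + pm s' i j) ∧
      t.2.2.2.1 ≠ t.2.2.2.2.1 ∧
      Can t.1 t.2.1 r t.2.2.2.1 ∧ Can a' b' r' t.2.2.2.1 ∧
      Exch r t.2.2.1 r' s' t.2.2.2.1 t.2.2.2.2.1 ∧
      pick t.2.2.2.2.2.1 (t.1 t.2.2.2.2.1) (t.2.1 t.2.2.2.2.1) = r t.2.2.2.1 ∧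
      pick t.2.2.2.2.2.2 (t.1 t.2.2.2.1) (t.2.1 t.2.2.2.1) = a' t.2.2.2.1 ∧
      f = w + ballots {t.1, t.2.1, t.2.2.1} ∧ f' = w + ballots {a', b', s'}) (by
      rintro ⟨a, b, s, x, y, c, d⟩ f1 f2 ⟨w1, a1, b1, s1, r1, q1, i1, j1, k1, l1, m1, n1, o1, e1, g1⟩
        ⟨w2, a2, b2, s2, r2, q2, i2, j2, k2, l2, m2, n2, o2, e2, g2⟩
      dsimp only at *
      have hw : w1 = w2 := by rw [e1] at e2; exact add_right_cancel e2
      have hr : r1 = r2 := can_unique k1 k2 (by rw [← n1, ← n2])
      subst hr
      obtain ⟨hq, hs⟩ := exch_unique j1 m1 m2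
      subst hq hs
      have hab : ∀ i j, pm a1 i j + pm b1 i j = pm a2 i j + pm b2 i j := by
        intro i j
        have h1 := i1 i j
        have h2 := i2 i j
        omega
      rcases switch_or_eq hab l1 l2 with h3 | h3
      · rw [g1, g2, h3.1, h3.2, hw]
      · exact absurd (by rw [← o1, ← o2]) h3.1) (by
      rintro f' ⟨w, a, b, s, a', b', s', h1, e1, g1⟩
      obtain ⟨htot, r, r', x, y, hxy, c1, c2, u1, v1, v2, v3, v4, v5, v6, v7⟩ :=
        (arc_iff _ _ _ _ _ _).1 h1
      obtain ⟨c, hc⟩ : ∃ c, pick c (a y) (b y) = r x := by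
        apply pick_of
        rcases u1 with h2 | h2
        · left; exact h2.1.symm
        · right; exact h2.2.symm
      obtain ⟨d, hd⟩ : ∃ d, pick d (a x) (b x) = a' x := by
        apply pick_of
        have h2 : UP (a x) (b x) (a' x) (b' x) := by
          apply up_of_ind
          intro z
          have h3 := htot x z
          unfold pm at h3
          rw [v4] at h3
          omega
        rcases h2 with h3 | h3
        · left; exact h3.1.symm
        · right; exact h3.2.symm
      refine ⟨(a, b, s, x, y, c, d), ?_, w, a', b', s', r, r', htot, hxy, c1, c2,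
        ⟨v1, v2, v3, v4, v5, v6, v7⟩, hc, hd, e1, g1⟩
      rw [mem_product, mem_product, mem_product]
      refine ⟨?_, ?_, ?_, mem_univ _⟩
      · rw [e1]; exact mem_supp (by simp)
      · rw [e1]; exact mem_supp (by simp)
      · rw [e1]; exact mem_supp (by simp))
  refine ⟨h.1, h.2.trans ?_⟩
  rw [card_product, card_product, card_product, card_univ]
  simp only [Fintype.card_prod, Fintype.card_fin, Fintype.card_bool]
  have := supp_card f
  calc (supp f).card * ((supp f).card * ((supp f).card * (p * (p * (2 * 2)))))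
      ≤ voters f * (voters f * (voters f * (p * (p * (2 * 2))))) := by gcongr
    _ = 4 * voters f ^ 3 * p ^ 2 := by ring

theorem step_count {p : ℕ} (f : Survey p) : {f' : Survey p | Step f f'}.Finite ∧
    {f' : Survey p | Step f f'}.ncard ≤ voters f ^ 2 * p + 4 * voters f ^ 3 * p ^ 2 := by
  have h1 := cyc_count f
  have h2 := arc_count f
  have hsub : {f' : Survey p | Step f f'} ⊆
      {f' : Survey p | ∃ (w : Survey p) (a b a' b' : Ranking p), CycleMove a b a' b' ∧
        f = w + ballots {a, b} ∧ f' = w + ballots {a', b'}} ∪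
      {f' : Survey p | ∃ (w : Survey p) (a b s a' b' s' : Ranking p), ArcMove a b s a' b' s' ∧
        f = w + ballots {a, b, s} ∧ f' = w + ballots {a', b', s'}} := by
    rintro f' ⟨-, h | h⟩
    · exact Or.inl h
    · exact Or.inr h
  have hfin := h1.1.union h2.1
  refine ⟨hfin.subset hsub, (Set.ncard_le_ncard hsub hfin).trans ?_⟩
  exact (Set.ncard_union_le _ _).trans (add_le_add h1.2 h2.2)

/-- The cycle moves and the arc moves form a Markov basis for the surveys on `S_p` with fixed
first-order summary, and their binomials generate the toric ideal; any two surveys with the same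
summary which differ in `d` ballots are joined
by at most `(d - 1) (p - 2)` steps, and every survey with `N` voters allows at most
`N ^ 2 p + 4 N ^ 3 p ^ 2` steps. -/
theorem result (p : ℕ) (hp : 1 ≤ p) :
    IsMarkovBasis (basis p) ∧
    (∀ (K : Type*) [Field K],
      Ideal.span {b | ∃ g ∈ basis p, b = Pool.Agent.Work.MP_697f4c_co.Toric.binomial K g}
        = RingHom.ker (Pool.Agent.Work.MP_697f4c_co.Toric.toricMap (Fin p) K)) ∧
    (∀ f f' : Survey p, summary f = summary f' →
      ∃ k ≤ (dist f f' - 1) * (p - 2), ∃ F : ℕ → Survey p, F 0 = f ∧ F k = f' ∧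
        ∀ t < k, Step (F t) (F (t + 1)) ∧ diff (F t) (F (t + 1)) ∈ basis p) ∧
    (∀ f : Survey p, {f' : Survey p | Step f f'}.Finite ∧
      {f' : Survey p | Step f f'}.ncard ≤ voters f ^ 2 * p + 4 * voters f ^ 3 * p ^ 2) := by
  refine ⟨⟨basis_finite p, fun g hg => basis_move hg, ?_⟩, ?_, ?_, step_count⟩
  · intro f f' h
    obtain ⟨k, -, F, h0, hk, hF⟩ := paths hp f f' h
    exact ⟨k, F, h0, hk, fun t ht => Or.inl (mem_basis (hF t ht))⟩
  · intro K _
    refine Pool.Agent.Work.MP_697f4c_co.Toric.span_eq_ker K (fun g hg => basis_move hg) ?_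
    intro f f' h
    obtain ⟨k, -, F, h0, hk, hF⟩ := paths hp f f' (funext fun i => funext fun j => h i j)
    exact ⟨k, F, h0, hk, fun t ht => Or.inl (mem_basis (hF t ht))⟩
  · intro f f' h
    obtain ⟨k, hk1, F, h0, hk, hF⟩ := paths hp f f' h
    exact ⟨k, hk1, F, h0, hk, fun t ht => ⟨hF t ht, mem_basis (hF t ht)⟩⟩

end Pool.Agent.Results.MP_697f4c_co.ArcBasis
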