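import Pool.Agent.Work.MP_697f4c_co.Quot2
import Pool.Agent.Work.MP_697f4c_co.Colon

/-!
MP_697f4c_co: surveys with full support. Two surveys with the same first-order summary in which
every ranking occurs are joined by elementary quadratic moves if and only if they agree in the
parity of the number of odd ballots, and otherwise by elementary quadratic moves and one cubic
move; in ideal terms the toric ideal is the colon ideal of an explicit ideal (the elementary
quadratic binomials and one cubic binomial) by the product of the variables.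
-/

open Equiv Finset Birk Relation Pool.Agent.Work.MP_697f4c_co

namespace Pool.Agent.Results.MP_697f4c_co.FullSupport

/-- A ranking of `p` candidates: candidate `i` is placed in position `σ i`. -/
abbrev Ranking (p : ℕ) := Perm (Fin p)

/-- A survey: `f σ` voters gave the ranking `σ`. -/
abbrev Survey (p : ℕ) := Ranking p → ℕ

/-- The first-order summary. -/
def summary {p : ℕ} (f : Survey p) (i j : Fin p) : ℕ := ∑ σ : Ranking p, if σ i = j then f σ else 0

/-- The number of ballots with an odd ranking. -/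
def odd {p : ℕ} (f : Survey p) : ℕ := ∑ σ : Ranking p, if Perm.sign σ = -1 then f σ else 0

/-- The survey with the ballots in `W`. -/
def ballots {p : ℕ} (W : Multiset (Ranking p)) : Survey p := fun σ => W.count σ

/-- Quadratic move: two ballots are replaced by two ballots, every candidate keeps its two
positions. -/
def Quadratic {p : ℕ} (f f' : Survey p) : Prop :=
  ∃ (w : Survey p) (a b a' b' : Ranking p),
    (∀ i, ({a' i, b' i} : Multiset (Fin p)) = {a i, b i}) ∧
    f = w + ballots {a, b} ∧ f' = w + ballots {a', b'}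

/-- Elementary quadratic move: `σ, σ (i j) (k l) → σ (i j), σ (k l)`. -/
def Elementary {p : ℕ} (f f' : Survey p) : Prop :=
  ∃ (w : Survey p) (σ : Ranking p) (i j k l : Fin p),
    i ≠ j ∧ i ≠ k ∧ i ≠ l ∧ j ≠ k ∧ j ≠ l ∧ k ≠ l ∧
    f = w + ballots {σ, σ * swap i j * swap k l} ∧
    f' = w + ballots {σ * swap i j, σ * swap k l}

/-- The ballots `ρ, ρ (x y z), ρ (x z y)`. -/
def side1 {p : ℕ} (ρ : Ranking p) (x y z : Fin p) : Survey p :=
  ballots {ρ, ρ * (swap x y * swap y z), ρ * (swap x z * swap z y)}

/-- The ballots `ρ (x y), ρ (y z), ρ (x z)`. -/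
def side2 {p : ℕ} (ρ : Ranking p) (x y z : Fin p) : Survey p :=
  ballots {ρ * swap x y, ρ * swap y z, ρ * swap x z}

/-- The ideal generated by the elementary quadratic binomials and by one cubic binomial. -/
noncomputable def smallIdeal {p : ℕ} (K : Type*) [Field K] (x y z : Fin p) :
    Ideal (MvPolynomial (Ranking p) K) :=
  Ideal.span ({b | ∃ (σ : Ranking p) (i j k l : Fin p),
      i ≠ j ∧ i ≠ k ∧ i ≠ l ∧ j ≠ k ∧ j ≠ l ∧ k ≠ l ∧
      b = MvPolynomial.X σ * MvPolynomial.X (σ * swap i j * swap k l)
        - MvPolynomial.X (σ * swap i j) * MvPolynomial.X (σ * swap k l)} ∪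
    {MvPolynomial.X 1 * MvPolynomial.X (swap x y * swap y z)
        * MvPolynomial.X (swap x z * swap z y)
      - MvPolynomial.X (swap x y) * MvPolynomial.X (swap y z) * MvPolynomial.X (swap x z)})

/-! ### Conversions -/

theorem bal_add {p : ℕ} (U V : Multiset (Ranking p)) : ballots (U + V) = ballots U + ballots V := by
  funext σ
  show Multiset.count σ (U + V) = Multiset.count σ U + Multiset.count σ V
  rw [Multiset.count_add]

theorem bal_pair {p : ℕ} (a b : Ranking p) : ballots ({a} + {b}) = ballots {a, b} := rfl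

theorem bal_ms {p : ℕ} (f : Survey p) : ballots (ms f) = f := by
  funext σ
  exact count_ms f σ

theorem elem_of {p : ℕ} {U V : Multiset (Ranking p)} (h : EMv U V) :
    Elementary (ballots U) (ballots V) := by
  obtain ⟨W, σ, i, j, k, l, ⟨h1, h2, h3, h4, h5, h6⟩, rfl, rfl⟩ := h
  refine ⟨ballots W, σ, i, j, k, l, h1, h2, h3, h4, h5, h6, ?_, ?_⟩
  · rw [bal_add, bal_pair]
  · rw [bal_add, bal_pair]

theorem of_quad {p : ℕ} {f f' : Survey p} (h : Quadratic f f') : AMv (ms f) (ms f') := by
  obtain ⟨w, a, b, a', b', hd, rfl, rfl⟩ := h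
  refine ⟨ms w, a, b, a', b', fun x y => sum_of_up (fun x => (up_iff _ _ _ _).1 (hd x)) x y, ?_, ?_⟩
  · apply cnt_inj
    intro σ
    rw [count_ms, Multiset.count_add, count_ms]; rfl
  · apply cnt_inj
    intro σ
    rw [count_ms, Multiset.count_add, count_ms]; rfl

theorem elem_quad {p : ℕ} {f f' : Survey p} (h : Elementary f f') : Quadratic f f' := by
  obtain ⟨w, σ, i, j, k, l, h1, h2, h3, h4, h5, h6, hf, hf'⟩ := h
  refine ⟨w, σ, σ * swap i j * swap k l, σ * swap i j, σ * swap k l, ?_, hf, hf'⟩
  intro t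
  rw [up_iff]
  unfold UP
  simp only [Perm.mul_apply]
  by_cases t1 : t = k
  · left
    subst t1
    rw [swap_apply_left, swap_apply_of_ne_of_ne (Ne.symm h2) (Ne.symm h4),
      swap_apply_of_ne_of_ne (Ne.symm h3) (Ne.symm h5)]
    exact ⟨rfl, rfl⟩
  by_cases t2 : t = l
  · left
    subst t2
    rw [swap_apply_right, swap_apply_of_ne_of_ne (Ne.symm h3) (Ne.symm h5),
      swap_apply_of_ne_of_ne (Ne.symm h2) (Ne.symm h4)]
    exact ⟨rfl, rfl⟩
  · right
    rw [swap_apply_of_ne_of_ne t1 t2]
    exact ⟨rfl, rfl⟩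

theorem rt_elem {p : ℕ} {U V : Multiset (Ranking p)} (h : ReflTransGen EMv U V) :
    ReflTransGen Elementary (ballots U) (ballots V) := by
  induction h with
  | refl => exact ReflTransGen.refl
  | tail _ h2 ih => exact ReflTransGen.tail ih (elem_of h2)

theorem elem_rt {p : ℕ} {f f' : Survey p} (h : ReflTransGen Elementary f f') :
    ReflTransGen Quadratic f f' := by
  induction h with
  | refl => exact ReflTransGen.refl
  | tail _ h2 ih => exact ReflTransGen.tail ih (elem_quad h2)

theorem quad_rt {p : ℕ} {f f' : Survey p} (h : ReflTransGen Quadratic f f') :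
    ReflTransGen AMv (ms f) (ms f') := by
  induction h with
  | refl => exact ReflTransGen.refl
  | tail _ h2 ih => exact ReflTransGen.tail ih (of_quad h2)

/-! ### Parity -/

theorem sg_ms {p : ℕ} (f : Survey p) : sg (ms f) = (-1) ^ odd f := by
  unfold sg ms odd
  have h1 : Multiset.map Perm.sign (∑ σ : Ranking p, Multiset.replicate (f σ) σ)
      = ∑ σ : Ranking p, Multiset.map Perm.sign (Multiset.replicate (f σ) σ) :=
    map_sum (Multiset.mapAddMonoidHom (Perm.sign : Ranking p → ℤˣ)) _ _
  rw [h1, Multiset.prod_sum, ← prod_pow_eq_pow_sum]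
  refine prod_congr rfl fun σ _ => ?_
  rw [Multiset.map_replicate, Multiset.prod_replicate]
  rcases Int.units_eq_one_or (Perm.sign σ) with h | h
  · rw [h, if_neg (by decide)]; simp
  · rw [h, if_pos rfl]

theorem par_iff {p : ℕ} (f f' : Survey p) : odd f ≡ odd f' [MOD 2] ↔ sg (ms f) = sg (ms f') := by
  rw [sg_ms, sg_ms]
  constructor
  · intro h
    exact pow_eq_pow_of_modEq h (by decide)
  · intro h
    have h2 : orderOf (-1 : ℤˣ) = 2 := by
      apply orderOf_eq_prime
      · decide
      · decide
    rw [← h2]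
    exact pow_eq_pow_iff_modEq.1 h

theorem tot_ms {p : ℕ} (f : Survey p) (i j : Fin p) : tot (ms f) i j = (summary f i j : ℤ) := by
  rw [tot_eq_sum]
  unfold summary
  push_cast
  refine sum_congr rfl fun σ _ => ?_
  rw [count_ms]

theorem card_eq {p : ℕ} (o : Fin p) (f : Survey p) : Multiset.card (ms f) = ∑ j, summary f o j := by
  rw [card_ms]
  unfold summary
  rw [sum_comm]
  refine sum_congr rfl fun σ _ => ?_
  simp

/-- the constant survey -/
def one (p : ℕ) : Survey p := fun _ => 1

theorem summary_add {p : ℕ} (g g' : Survey p) (i j : Fin p) :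
    summary (g + g') i j = summary g i j + summary g' i j := by
  unfold summary
  rw [← sum_add_distrib]
  refine sum_congr rfl fun σ _ => ?_
  by_cases hσ : σ i = j
  · simp only [hσ, if_true]; rfl
  · simp only [hσ, if_false]

theorem bal_AA (p : ℕ) : ballots (AA (Fin p)) = one p := by
  funext σ
  show Multiset.count σ (univ : Finset (Perm (Fin p))).val = 1
  exact Multiset.count_eq_one_of_mem univ.nodup (mem_univ σ)

theorem val_three1 {p : ℕ} (ρ : Ranking p) {x y z : Fin p} (hxy : x ≠ y) (hyz : y ≠ z)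
    (hxz : x ≠ z) : ballots (s1 ρ x y z).val = side1 ρ x y z := by
  rw [val_s1 ρ hxy hyz hxz]
  unfold side1
  congr 1

theorem val_three2 {p : ℕ} (ρ : Ranking p) {x y z : Fin p} (hxy : x ≠ y) (hyz : y ≠ z)
    (hxz : x ≠ z) : ballots (s2 ρ x y z).val = side2 ρ x y z := by
  rw [val_s2 ρ hxy hyz hxz]
  unfold side2
  congr 1

theorem main {p : ℕ} (hp : 4 ≤ p) {g g' : Survey p}
    (h : summary g = summary g') (ρ : Ranking p) {x y z : Fin p} (hxy : x ≠ y) (hyz : y ≠ z)
    (hxz : x ≠ z) :
    (sg (ms g) = sg (ms g') → ReflTransGen Elementary (g + one p) (g' + one p)) ∧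
    (sg (ms g) ≠ sg (ms g') → ∃ w : Survey p,
      ReflTransGen Elementary (g + one p) (w + side1 ρ x y z) ∧
      w + side2 ρ x y z = g' + one p) := by
  have hα : 4 ≤ Fintype.card (Fin p) := by rw [Fintype.card_fin]; exact hp
  have hcard : Multiset.card (ms g) = Multiset.card (ms g') := by
    rw [card_eq x, card_eq x, h]
  have htot : ∀ i j, tot (ms g) i j = tot (ms g') i j := by
    intro i j; rw [tot_ms, tot_ms, h]
  have key := full hα ρ hxy hyz hxz hcard htot
  constructor
  · intro hs
    rcases key with k | k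
    · have := rt_elem k
      rwa [bal_add, bal_add, bal_ms, bal_ms, bal_AA] at this
    · exfalso
      have h1 := em_sg k
      rw [sg_add, sg_add, sg_om ρ hxy hyz hxz, hs] at h1
      exact units_ne_neg _ (mul_left_cancel h1)
  · intro hs
    rcases key with k | k
    · exfalso
      have h1 := em_sg k
      rw [sg_add, sg_add] at h1
      exact hs (mul_right_cancel h1)
    · refine ⟨g' + ballots ((s2 ρ x y z)ᶜ).val, ?_, ?_⟩
      · have := rt_elem k
        unfold Om at this
        rw [bal_add, bal_add, bal_add, bal_ms, bal_ms, bal_AA, val_three1 ρ hxy hyz hxz] at this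
        rwa [show g' + ballots ((s2 ρ x y z)ᶜ).val + side1 ρ x y z
          = g' + (side1 ρ x y z + ballots ((s2 ρ x y z)ᶜ).val) by abel]
      · have e : one p = side2 ρ x y z + ballots ((s2 ρ x y z)ᶜ).val := by
          rw [← bal_AA, om_split ρ x y z, bal_add, val_three2 ρ hxy hyz hxz]
        rw [e]; abel

theorem sub_one {p : ℕ} {f : Survey p} (h : ∀ σ, 1 ≤ f σ) : ∃ g : Survey p, f = g + one p := by
  refine ⟨fun σ => f σ - 1, ?_⟩
  funext σ
  show f σ = f σ - 1 + 1
  have := h σ
  omega

theorem ms_add {p : ℕ} (f g : Survey p) : ms (f + g) = ms f + ms g := by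
  apply cnt_inj
  intro σ
  rw [count_ms, Multiset.count_add, count_ms, count_ms]; rfl

theorem sg_sub {p : ℕ} (g g' c : Survey p) :
    sg (ms (g + c)) = sg (ms (g' + c)) ↔ sg (ms g) = sg (ms g') := by
  rw [ms_add, ms_add, sg_add, sg_add]
  exact ⟨fun h => mul_right_cancel h, fun h => by rw [h]⟩

theorem summary_sub {p : ℕ} {g g' c : Survey p} (h : summary (g + c) = summary (g' + c)) :
    summary g = summary g' := by
  funext i j
  have h1 := congrFun (congrFun h i) j
  rw [summary_add, summary_add] at h1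
  omega

theorem full_part {p : ℕ} (hp : 4 ≤ p) {f f' : Survey p} (h : summary f = summary f')
    (hf : ∀ σ, 1 ≤ f σ) (hf' : ∀ σ, 1 ≤ f' σ) :
    (ReflTransGen Elementary f f' ↔ odd f ≡ odd f' [MOD 2]) ∧
    (ReflTransGen Quadratic f f' ↔ odd f ≡ odd f' [MOD 2]) ∧
    (¬ odd f ≡ odd f' [MOD 2] → ∀ (ρ : Ranking p) (x y z : Fin p), x ≠ y → y ≠ z → x ≠ z →
      ∃ w : Survey p, ReflTransGen Elementary f (w + side1 ρ x y z) ∧
        w + side2 ρ x y z = f') := by
  obtain ⟨g, rfl⟩ := sub_one hf
  obtain ⟨g', rfl⟩ := sub_one hf'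
  have h1 := fun (ρ : Ranking p) (x y z : Fin p) (a : x ≠ y) (b : y ≠ z) (c : x ≠ z) =>
    main hp (summary_sub h) ρ a b c
  have h3 : ReflTransGen Quadratic (g + one p) (g' + one p) → sg (ms g) = sg (ms g') := by
    intro h2
    rw [← sg_sub g g' (one p)]
    exact am_sg (quad_rt h2)
  have h4 := (h1 1 ⟨0, by omega⟩ ⟨1, by omega⟩ ⟨2, by omega⟩ (by simp) (by simp) (by simp)).1
  rw [par_iff, sg_sub]
  exact ⟨⟨fun h2 => h3 (elem_rt h2), h4⟩, ⟨h3, fun h2 => elem_rt (h4 h2)⟩,
    fun h2 ρ x y z a b c => (h1 ρ x y z a b c).2 h2⟩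

/-! ### Ideals -/

theorem mon_single {p : ℕ} (K : Type*) [Field K] (a : Ranking p) :
    Toric.mon K (ballots {a}) = MvPolynomial.X a := by
  unfold Toric.mon ballots
  rw [prod_eq_single a]
  · simp
  · intro b _ hb
    rw [Multiset.count_singleton, if_neg hb, pow_zero]
  · intro h
    exact absurd (mem_univ _) h

theorem mon_cons {p : ℕ} (K : Type*) [Field K] (a : Ranking p) (W : Multiset (Ranking p)) :
    Toric.mon K (ballots (a ::ₘ W)) = MvPolynomial.X a * Toric.mon K (ballots W) := by
  rw [← Multiset.singleton_add, bal_add, Toric.mon_add, mon_single]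

theorem mon_pair {p : ℕ} (K : Type*) [Field K] (a b : Ranking p) :
    Toric.mon K (ballots {a, b}) = MvPolynomial.X a * MvPolynomial.X b := by
  rw [Multiset.insert_eq_cons, mon_cons, mon_single]

theorem mon_three {p : ℕ} (K : Type*) [Field K] (a b c : Ranking p) :
    Toric.mon K (ballots {a, b, c})
      = MvPolynomial.X a * MvPolynomial.X b * MvPolynomial.X c := by
  rw [Multiset.insert_eq_cons, mon_cons, mon_pair, mul_assoc]

theorem elem_mem {p : ℕ} (K : Type*) [Field K] (x y z : Fin p) {f f' : Survey p}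
    (h : ReflTransGen Elementary f f') :
    Toric.mon K f' - Toric.mon K f ∈ smallIdeal K x y z := by
  induction h with
  | refl => rw [sub_self]; exact Ideal.zero_mem _
  | @tail g g' _ h2 ih =>
    have h3 : Toric.mon K g' - Toric.mon K g ∈ smallIdeal K x y z := by
      obtain ⟨w, σ, i, j, k, l, h1, h2, h3, h4, h5, h6, rfl, rfl⟩ := h2
      rw [Toric.mon_add, Toric.mon_add, mon_pair, mon_pair, ← mul_sub]
      apply Ideal.mul_mem_left
      rw [← neg_sub]
      apply neg_mem
      apply Ideal.subset_span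
      exact Or.inl ⟨σ, i, j, k, l, h1, h2, h3, h4, h5, h6, rfl⟩
    have := Ideal.add_mem _ h3 ih
    rwa [sub_add_sub_cancel] at this

theorem mon_one {p : ℕ} (K : Type*) [Field K] :
    Toric.mon K (one p) = ∏ σ : Ranking p, MvPolynomial.X σ := by
  unfold Toric.mon one
  exact prod_congr rfl fun σ _ => pow_one _

theorem colon_one {p : ℕ} (hp : 4 ≤ p) (K : Type*) [Field K] {x y z : Fin p} (hxy : x ≠ y)
    (hyz : y ≠ z) (hxz : x ≠ z) {P : MvPolynomial (Ranking p) K}
    (hP : P ∈ RingHom.ker (Toric.toricMap (Fin p) K)) :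
    (∏ σ : Ranking p, MvPolynomial.X σ) * P ∈ smallIdeal K x y z := by
  refine mul_mem_of K ?_ hP
  intro f f' h
  have hs : summary (f + one p) = summary (f' + one p) := by
    funext i j
    rw [summary_add, summary_add]
    congr 1
    exact h i j
  obtain ⟨q1, -, q2⟩ := full_part hp hs (fun σ => Nat.le_add_left 1 _)
    (fun σ => Nat.le_add_left 1 _)
  rw [← mon_one, mul_sub, ← Toric.mon_add, ← Toric.mon_add, add_comm (one p) f',
    add_comm (one p) f]
  by_cases hpar : odd (f + one p) ≡ odd (f' + one p) [MOD 2]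
  · exact elem_mem K x y z (q1.2 hpar)
  · obtain ⟨w, hw1, hw2⟩ := q2 hpar 1 x y z hxy hyz hxz
    have h1 := elem_mem K x y z hw1
    have h2 : Toric.mon K (w + side2 1 x y z) - Toric.mon K (w + side1 1 x y z)
        ∈ smallIdeal K x y z := by
      unfold side1 side2
      rw [Toric.mon_add, Toric.mon_add, mon_three, mon_three, ← mul_sub]
      apply Ideal.mul_mem_left
      rw [← neg_sub]
      apply neg_mem
      apply Ideal.subset_span
      right
      rw [Set.mem_singleton_iff]
      simp only [one_mul]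
    rw [← hw2]
    have := Ideal.add_mem _ h2 h1
    rwa [sub_add_sub_cancel] at this

theorem toric_X {p : ℕ} (K : Type*) [Field K] (a : Ranking p) :
    Toric.toricMap (Fin p) K (MvPolynomial.X a) = ∏ i, MvPolynomial.X (i, a i) := by
  unfold Toric.toricMap
  rw [MvPolynomial.aeval_X]

theorem smallIdeal_le {p : ℕ} (K : Type*) [Field K] {x y z : Fin p} (hxy : x ≠ y)
    (hyz : y ≠ z) (hxz : x ≠ z) :
    smallIdeal K x y z ≤ RingHom.ker (Toric.toricMap (Fin p) K) := by
  unfold smallIdeal
  rw [Ideal.span_le]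
  rintro b (⟨σ, i, j, k, l, h1, h2, h3, h4, h5, h6, rfl⟩ | hb)
  · show _ ∈ RingHom.ker _
    rw [RingHom.mem_ker, map_sub, map_mul, map_mul, toric_X, toric_X, toric_X, toric_X,
      ← prod_mul_distrib, ← prod_mul_distrib, sub_eq_zero]
    refine prod_congr rfl fun t _ => ?_
    simp only [Perm.mul_apply]
    by_cases t1 : t = k
    · subst t1
      rw [swap_apply_left, swap_apply_of_ne_of_ne (Ne.symm h2) (Ne.symm h4),
        swap_apply_of_ne_of_ne (Ne.symm h3) (Ne.symm h5)]
    by_cases t2 : t = l
    · subst t2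
      rw [swap_apply_right, swap_apply_of_ne_of_ne (Ne.symm h3) (Ne.symm h5),
        swap_apply_of_ne_of_ne (Ne.symm h2) (Ne.symm h4)]
    · rw [swap_apply_of_ne_of_ne t1 t2, mul_comm]
  · rw [Set.mem_singleton_iff] at hb
    subst hb
    show _ ∈ RingHom.ker _
    rw [RingHom.mem_ker, map_sub, map_mul, map_mul, map_mul, map_mul, toric_X, toric_X, toric_X,
      toric_X, toric_X, toric_X, ← prod_mul_distrib, ← prod_mul_distrib, ← prod_mul_distrib,
      ← prod_mul_distrib, sub_eq_zero]
    refine prod_congr rfl fun i _ => ?_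
    simp only [Perm.mul_apply, Perm.one_apply]
    by_cases h1 : i = x
    · subst h1
      rw [swap_apply_of_ne_of_ne hxy hxz, swap_apply_left, swap_apply_of_ne_of_ne hxz hxy,
        swap_apply_left]
      ring
    by_cases h2 : i = y
    · subst h2
      rw [swap_apply_left, swap_apply_of_ne_of_ne (Ne.symm hxz) (Ne.symm hyz), swap_apply_right,
        swap_apply_right, swap_apply_right, swap_apply_of_ne_of_ne (Ne.symm hxy) hyz]
      ring
    by_cases h3 : i = z
    · subst h3
      rw [swap_apply_right, swap_apply_right, swap_apply_left,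
        swap_apply_of_ne_of_ne (Ne.symm hxy) hyz,
        swap_apply_of_ne_of_ne (Ne.symm hxz) (Ne.symm hyz), swap_apply_right]
      ring
    · rw [swap_apply_of_ne_of_ne h2 h3, swap_apply_of_ne_of_ne h1 h2,
        swap_apply_of_ne_of_ne h3 h2, swap_apply_of_ne_of_ne h1 h3]

theorem colon_iff {p : ℕ} (hp : 4 ≤ p) (K : Type*) [Field K] {x y z : Fin p} (hxy : x ≠ y)
    (hyz : y ≠ z) (hxz : x ≠ z) (P : MvPolynomial (Ranking p) K) :
    P ∈ RingHom.ker (Toric.toricMap (Fin p) K) ↔
      (∏ σ : Ranking p, MvPolynomial.X σ) * P ∈ smallIdeal K x y z := by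
  constructor
  · exact colon_one hp K hxy hyz hxz
  · intro h
    have h1 := smallIdeal_le K hxy hyz hxz h
    rw [RingHom.mem_ker, map_mul, mul_eq_zero] at h1
    rcases h1 with h1 | h1
    · exfalso
      rw [map_prod, prod_eq_zero_iff] at h1
      obtain ⟨σ, -, h2⟩ := h1
      rw [toric_X, prod_eq_zero_iff] at h2
      obtain ⟨i, -, h3⟩ := h2
      exact MvPolynomial.X_ne_zero _ h3
    · exact h1

/-- Let `4 ≤ p`. Two surveys with the same first-order summary in which every ranking occurs are
joined by elementary quadratic moves (equivalently by quadratic moves) if and only if the numbers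
of their odd ballots have the same parity; otherwise elementary quadratic moves and then one cubic
move, which can be prescribed, lead from one to the other. A polynomial lies in the toric ideal if
and only if its product with all variables lies in the ideal generated by the elementary quadratic
binomials and one cubic binomial. -/
theorem result (p : ℕ) (hp : 4 ≤ p) :
    (∀ f f' : Survey p, summary f = summary f' → (∀ σ, 1 ≤ f σ) → (∀ σ, 1 ≤ f' σ) →
      (ReflTransGen Elementary f f' ↔ odd f ≡ odd f' [MOD 2]) ∧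
      (ReflTransGen Quadratic f f' ↔ odd f ≡ odd f' [MOD 2]) ∧
      (¬ odd f ≡ odd f' [MOD 2] → ∀ (ρ : Ranking p) (x y z : Fin p), x ≠ y → y ≠ z → x ≠ z →
        ∃ w : Survey p, ReflTransGen Elementary f (w + side1 ρ x y z) ∧
          w + side2 ρ x y z = f')) ∧
    (∀ (K : Type*) [Field K] (x y z : Fin p), x ≠ y → y ≠ z → x ≠ z →
      ∀ P : MvPolynomial (Ranking p) K,
        P ∈ RingHom.ker (Toric.toricMap (Fin p) K) ↔
          (∏ σ : Ranking p, MvPolynomial.X σ) * P ∈ smallIdeal K x y z) := by
  exact ⟨fun f f' h hf hf' => full_part hp h hf hf',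
    fun K _ x y z hxy hyz hxz P => colon_iff hp K hxy hyz hxz P⟩

end Pool.Agent.Results.MP_697f4c_co.FullSupport
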