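import Pool.Agent.Work.MP_697f4c_co.Clos
import Pool.Agent.Work.MP_697f4c_co.Colon

/-!
MP_697f4c_co: surveys with large second-order summary. Two surveys with the same first-order
summary in which any two candidates take any two positions often are joined by quadratic moves if
and only if they agree in the parity of the number of odd ballots; large entries of the first-order
summary do not suffice. In ideal terms: the toric ideal is the colon ideal of the ideal of all
quadratic binomials and one cubic binomial by a power of the product of the variables of any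
2-transitive set of rankings. The same holds for every set of rankings from which quadratic moves
produce all rankings, in particular for every transitive group which is not of prime order `p`.
-/

open Equiv Finset Birk Relation Pool.Agent.Work.MP_697f4c_co

namespace Pool.Agent.Results.MP_697f4c_co.SecondOrder

/-- A ranking of `p` candidates: candidate `i` is placed in position `σ i`. -/
abbrev Ranking (p : ℕ) := Perm (Fin p)

/-- A survey: `f σ` voters gave the ranking `σ`. -/
abbrev Survey (p : ℕ) := Ranking p → ℕ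

/-- The first-order summary. -/
def summary {p : ℕ} (f : Survey p) (i j : Fin p) : ℕ := ∑ σ : Ranking p, if σ i = j then f σ else 0

/-- The number of ballots with an odd ranking. -/
def odd {p : ℕ} (f : Survey p) : ℕ := ∑ σ : Ranking p, if Perm.sign σ = -1 then f σ else 0

/-- The survey with the ballots in `W`. -/
def ballots {p : ℕ} (W : Multiset (Ranking p)) : Survey p := fun σ => W.count σ

/-- Quadratic move: two ballots are replaced by two ballots, every candidate keeps its two
positions. -/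
def Quadratic {p : ℕ} (f f' : Survey p) : Prop :=
  ∃ (w : Survey p) (a b a' b' : Ranking p),
    (∀ i, ({a' i, b' i} : Multiset (Fin p)) = {a i, b i}) ∧
    f = w + ballots {a, b} ∧ f' = w + ballots {a', b'}

/-- The ballots `ρ, ρ (x y z), ρ (x z y)`. -/
def side1 {p : ℕ} (ρ : Ranking p) (x y z : Fin p) : Survey p :=
  ballots {ρ, ρ * (swap x y * swap y z), ρ * (swap x z * swap z y)}

/-- The ballots `ρ (x y), ρ (y z), ρ (x z)`. -/
def side2 {p : ℕ} (ρ : Ranking p) (x y z : Fin p) : Survey p :=
  ballots {ρ * swap x y, ρ * swap y z, ρ * swap x z}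

/-- The number of voters who put candidate `i` in position `k` and candidate `j` in position
`l`. -/
def pairs {p : ℕ} (f : Survey p) (i j k l : Fin p) : ℕ :=
  ∑ σ : Ranking p, if σ i = k ∧ σ j = l then f σ else 0

/-- Any two candidates take any two positions on at least `m` ballots. -/
def SecondOrder {p : ℕ} (m : ℕ) (f : Survey p) : Prop :=
  ∀ i j k l, i ≠ j → k ≠ l → m ≤ pairs f i j k l

/-- Any two candidates take any two positions in some ranking of `S`. -/
def TwoTransitive {p : ℕ} (S : Finset (Ranking p)) : Prop :=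
  ∀ i j k l, i ≠ j → k ≠ l → ∃ σ ∈ S, σ i = k ∧ σ j = l

/-- Every candidate takes every position in some ranking of `S`. -/
def Covering {p : ℕ} (S : Finset (Ranking p)) : Prop := ∀ i j, ∃ σ ∈ S, σ i = j

/-- `N` ballots for each ranking of `S`. -/
def copies {p : ℕ} (N : ℕ) (S : Finset (Ranking p)) : Survey p := fun σ => if σ ∈ S then N else 0

/-- Quadratic moves can produce a survey with the ranking `σ` from a survey in which all rankings
belong to `S`. -/
def Obtainable {p : ℕ} (S : Finset (Ranking p)) (σ : Ranking p) : Prop :=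
  ∃ f f' : Survey p, (∀ τ, f τ ≠ 0 → τ ∈ S) ∧ ReflTransGen Quadratic f f' ∧ f' σ ≠ 0

/-- The ideal generated by all quadratic binomials of the toric ideal and by one cubic
binomial. -/
noncomputable def quadCubic {p : ℕ} (K : Type*) [Field K] (x y z : Fin p) :
    Ideal (MvPolynomial (Ranking p) K) :=
  Ideal.span ({b | ∃ a a' c d : Ranking p, (∀ i, ({c i, d i} : Multiset (Fin p)) = {a i, a' i}) ∧
      b = MvPolynomial.X a * MvPolynomial.X a' - MvPolynomial.X c * MvPolynomial.X d} ∪
    {MvPolynomial.X 1 * MvPolynomial.X (swap x y * swap y z)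
        * MvPolynomial.X (swap x z * swap z y)
      - MvPolynomial.X (swap x y) * MvPolynomial.X (swap y z) * MvPolynomial.X (swap x z)})

/-! ### Conversions -/

theorem bal_add {p : ℕ} (U V : Multiset (Ranking p)) : ballots (U + V) = ballots U + ballots V := by
  funext σ
  show Multiset.count σ (U + V) = Multiset.count σ U + Multiset.count σ V
  rw [Multiset.count_add]

theorem bal_pair {p : ℕ} (a b : Ranking p) : ballots ({a} + {b}) = ballots {a, b} := rfl

theorem bal_ms {p : ℕ} (f : Survey p) : ballots (ms f) = f := by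
  funext σ
  exact count_ms f σ

theorem quad_of {p : ℕ} {U V : Multiset (Ranking p)} (h : AMv U V) :
    Quadratic (ballots U) (ballots V) := by
  obtain ⟨W, a, b, a', b', hd, rfl, rfl⟩ := h
  refine ⟨ballots W, a, b, a', b', fun x => (up_iff _ _ _ _).2 (up_of_sum (hd x)), ?_, ?_⟩
  · rw [bal_add, bal_pair]
  · rw [bal_add, bal_pair]

theorem rt_quad {p : ℕ} {U V : Multiset (Ranking p)} (h : ReflTransGen AMv U V) :
    ReflTransGen Quadratic (ballots U) (ballots V) := by
  induction h with
  | refl => exact ReflTransGen.refl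
  | tail _ h2 ih => exact ReflTransGen.tail ih (quad_of h2)

theorem of_quad {p : ℕ} {f f' : Survey p} (h : Quadratic f f') : AMv (ms f) (ms f') := by
  obtain ⟨w, a, b, a', b', hd, rfl, rfl⟩ := h
  refine ⟨ms w, a, b, a', b', fun x y => sum_of_up (fun x => (up_iff _ _ _ _).1 (hd x)) x y, ?_, ?_⟩
  · apply cnt_inj
    intro σ
    rw [count_ms, Multiset.count_add, count_ms]; rfl
  · apply cnt_inj
    intro σ
    rw [count_ms, Multiset.count_add, count_ms]; rfl

theorem quad_rt {p : ℕ} {f f' : Survey p} (h : ReflTransGen Quadratic f f') :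
    ReflTransGen AMv (ms f) (ms f') := by
  induction h with
  | refl => exact ReflTransGen.refl
  | tail _ h2 ih => exact ReflTransGen.tail ih (of_quad h2)

/-! ### Parity -/

theorem sg_ms {p : ℕ} (f : Survey p) : sg (ms f) = (-1) ^ odd f := by
  unfold sg ms odd
  have h1 : Multiset.map Perm.sign (∑ σ : Ranking p, Multiset.replicate (f σ) σ)
      = ∑ σ : Ranking p, Multiset.map Perm.sign (Multiset.replicate (f σ) σ) :=
    map_sum (Multiset.mapAddMonoidHom (Perm.sign : Ranking p → ℤˣ)) _ _
  rw [h1, Multiset.prod_sum, ← prod_pow_eq_pow_sum]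
  refine prod_congr rfl fun σ _ => ?_
  rw [Multiset.map_replicate, Multiset.prod_replicate]
  rcases Int.units_eq_one_or (Perm.sign σ) with h | h
  · rw [h, if_neg (by decide)]; simp
  · rw [h, if_pos rfl]

theorem par_iff {p : ℕ} (f f' : Survey p) : odd f ≡ odd f' [MOD 2] ↔ sg (ms f) = sg (ms f') := by
  rw [sg_ms, sg_ms]
  constructor
  · intro h
    exact pow_eq_pow_of_modEq h (by decide)
  · intro h
    have h2 : orderOf (-1 : ℤˣ) = 2 := by
      apply orderOf_eq_prime
      · decide
      · decide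
    rw [← h2]
    exact pow_eq_pow_iff_modEq.1 h

theorem tot_ms {p : ℕ} (f : Survey p) (i j : Fin p) : tot (ms f) i j = (summary f i j : ℤ) := by
  rw [tot_eq_sum]
  unfold summary
  push_cast
  refine sum_congr rfl fun σ _ => ?_
  rw [count_ms]

theorem card_eq {p : ℕ} (o : Fin p) (f : Survey p) : Multiset.card (ms f) = ∑ j, summary f o j := by
  rw [card_ms]
  unfold summary
  rw [sum_comm]
  refine sum_congr rfl fun σ _ => ?_
  simp

theorem val_three1 {p : ℕ} (ρ : Ranking p) {x y z : Fin p} (hxy : x ≠ y) (hyz : y ≠ z)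
    (hxz : x ≠ z) : ballots (s1 ρ x y z).val = side1 ρ x y z := by
  rw [val_s1 ρ hxy hyz hxz]
  unfold side1
  congr 1

theorem val_three2 {p : ℕ} (ρ : Ranking p) {x y z : Fin p} (hxy : x ≠ y) (hyz : y ≠ z)
    (hxz : x ≠ z) : ballots (s2 ρ x y z).val = side2 ρ x y z := by
  rw [val_s2 ρ hxy hyz hxz]
  unfold side2
  congr 1

theorem rich_iff {p : ℕ} (m : ℕ) (f : Survey p) : Rich m (ms f) ↔ SecondOrder m f := by
  have key : ∀ i j k l : Fin p, Multiset.card ((ms f).filter fun σ => σ i = k ∧ σ j = l)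
      = pairs f i j k l := by
    intro i j k l
    rw [← Multiset.countP_eq_card_filter]
    have h1 : Multiset.countP (fun σ : Ranking p => σ i = k ∧ σ j = l) (ms f)
        = ∑ σ : Ranking p, Multiset.countP (fun σ : Ranking p => σ i = k ∧ σ j = l)
          (Multiset.replicate (f σ) σ) :=
      map_sum (Multiset.countPAddMonoidHom (fun σ : Ranking p => σ i = k ∧ σ j = l)) _ _
    rw [h1]
    unfold pairs
    refine sum_congr rfl fun σ _ => ?_
    rw [Multiset.countP_eq_card_filter]
    split_ifs with h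
    · rw [Multiset.filter_eq_self.2, Multiset.card_replicate]
      intro a ha
      rw [Multiset.eq_of_mem_replicate ha]; exact h
    · rw [Multiset.filter_eq_nil.2, Multiset.card_zero]
      intro a ha
      rw [Multiset.eq_of_mem_replicate ha]; exact h
  unfold Rich SecondOrder
  simp only [key]

theorem sg_side {p : ℕ} (w : Multiset (Ranking p)) (ρ : Ranking p) {x y z : Fin p} (hxy : x ≠ y)
    (hyz : y ≠ z) (hxz : x ≠ z) : sg (w + (s1 ρ x y z).val) = - sg (w + (s2 ρ x y z).val) := by
  rw [sg_add, sg_add, val_s1 ρ hxy hyz hxz, val_s2 ρ hxy hyz hxz]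
  have e1 : sg ({ρ} + {ρ * (swap x y * swap y z)} + {ρ * (swap x z * swap z y)})
      = - sg ({ρ * swap x y} + {ρ * swap y z} + {ρ * swap x z}) := by
    unfold sg
    simp only [Multiset.map_add, Multiset.map_singleton, Multiset.prod_add,
      Multiset.prod_singleton, Perm.sign_mul, Perm.sign_swap hxy, Perm.sign_swap hyz,
      Perm.sign_swap hxz, Perm.sign_swap (Ne.symm hyz)]
    rcases Int.units_eq_one_or (Perm.sign ρ) with h | h
    · rw [h]; decide
    · rw [h]; decide
  rw [e1]
  rcases Int.units_eq_one_or (sg w) with h | h <;>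
  rcases Int.units_eq_one_or (sg ({ρ * swap x y} + {ρ * swap y z} + {ρ * swap x z})) with h' | h' <;>
  rw [h, h'] <;> decide

/-- arithmetic of the constants -/
theorem const1 {p : ℕ} (hp : 4 ≤ p) : (p + 1) * (96 * p + 94) ≤ 150 * p ^ 2 := by nlinarith

theorem const2 {p : ℕ} (hp : 4 ≤ p) :
    (p + 1) * ((p + 1) * (96 * p + 94) * p ^ 4) ≤ 200 * p ^ 7 := by
  have h1 := const1 hp
  have h2 : 4 * (p + 1) ≤ 5 * p := by omega
  have h3 : 4 * ((p + 1) * ((p + 1) * (96 * p + 94) * p ^ 4)) ≤ 4 * (200 * p ^ 7) := by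
    calc 4 * ((p + 1) * ((p + 1) * (96 * p + 94) * p ^ 4))
        = 4 * (p + 1) * ((p + 1) * (96 * p + 94)) * p ^ 4 := by ring
      _ ≤ 5 * p * (150 * p ^ 2) * p ^ 4 := by gcongr
      _ = 750 * p ^ 7 := by ring
      _ ≤ 4 * (200 * p ^ 7) := by
          have : 0 ≤ p ^ 7 := Nat.zero_le _
          omega
  omega

/-- first part -/
theorem second_part {p : ℕ} (hp : 4 ≤ p) {f f' : Survey p} (h : summary f = summary f')
    (hf : SecondOrder (200 * p ^ 7) f) (hf' : SecondOrder (200 * p ^ 7) f') :
    (ReflTransGen Quadratic f f' ↔ odd f ≡ odd f' [MOD 2]) ∧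
    (¬ odd f ≡ odd f' [MOD 2] → ∀ (ρ : Ranking p) (x y z : Fin p), x ≠ y → y ≠ z → x ≠ z →
      ∃ w : Survey p, ReflTransGen Quadratic f (w + side1 ρ x y z) ∧
        ReflTransGen Quadratic (w + side2 ρ x y z) f') := by
  have hα : 4 ≤ Fintype.card (Fin p) := by rw [Fintype.card_fin]; exact hp
  have o : Fin p := ⟨0, by omega⟩
  have hcard : Multiset.card (ms f) = Multiset.card (ms f') := by
    rw [card_eq o, card_eq o, h]
  have htot : ∀ i j, tot (ms f) i j = tot (ms f') i j := by
    intro i j; rw [tot_ms, tot_ms, h]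
  have key := fun (ρ : Ranking p) (x y z : Fin p) (a : x ≠ y) (b : y ≠ z) (c : x ≠ z) =>
    rich_pair hα ρ a b c hcard htot (m := 200 * p ^ 7)
      (by rw [Fintype.card_fin]; exact const2 hp) ((rich_iff _ _).2 hf) ((rich_iff _ _).2 hf')
  rw [par_iff]
  refine ⟨⟨fun h2 => am_sg (quad_rt h2), fun h2 => ?_⟩, fun h2 ρ x y z a b c => ?_⟩
  · have e1 : (⟨0, by omega⟩ : Fin p) ≠ ⟨1, by omega⟩ := by simp
    have e2 : (⟨1, by omega⟩ : Fin p) ≠ ⟨2, by omega⟩ := by simp
    have e3 : (⟨0, by omega⟩ : Fin p) ≠ ⟨2, by omega⟩ := by simp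
    rcases key 1 _ _ _ e1 e2 e3 with k | ⟨w, k1, k2⟩
    · have := rt_quad k
      rwa [bal_ms, bal_ms] at this
    · exfalso
      have m1 := am_sg k1
      have m2 := am_sg k2
      rw [sg_side w 1 e1 e2 e3, h2, ← m2] at m1
      exact units_ne_neg _ m1
  · rcases key ρ x y z a b c with k | ⟨w, k1, k2⟩
    · exact absurd (am_sg k) h2
    · refine ⟨ballots w, ?_, ?_⟩
      · have := rt_quad k1
        rwa [bal_ms, bal_add, val_three1 ρ a b c] at this
      · have := rt_quad k2
        rwa [bal_ms, bal_add, val_three2 ρ a b c] at this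

/-! ### Ideals -/

theorem mon_single {p : ℕ} (K : Type*) [Field K] (a : Ranking p) :
    Toric.mon K (ballots {a}) = MvPolynomial.X a := by
  unfold Toric.mon ballots
  rw [prod_eq_single a]
  · simp
  · intro b _ hb
    rw [Multiset.count_singleton, if_neg hb, pow_zero]
  · intro h
    exact absurd (mem_univ _) h

theorem mon_cons {p : ℕ} (K : Type*) [Field K] (a : Ranking p) (W : Multiset (Ranking p)) :
    Toric.mon K (ballots (a ::ₘ W)) = MvPolynomial.X a * Toric.mon K (ballots W) := by
  rw [← Multiset.singleton_add, bal_add, Toric.mon_add, mon_single]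

theorem mon_pair {p : ℕ} (K : Type*) [Field K] (a b : Ranking p) :
    Toric.mon K (ballots {a, b}) = MvPolynomial.X a * MvPolynomial.X b := by
  rw [Multiset.insert_eq_cons, mon_cons, mon_single]

theorem mon_three {p : ℕ} (K : Type*) [Field K] (a b c : Ranking p) :
    Toric.mon K (ballots {a, b, c})
      = MvPolynomial.X a * MvPolynomial.X b * MvPolynomial.X c := by
  rw [Multiset.insert_eq_cons, mon_cons, mon_pair, mul_assoc]

theorem quad_mem {p : ℕ} (K : Type*) [Field K] (x y z : Fin p) {f f' : Survey p}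
    (h : ReflTransGen Quadratic f f') :
    Toric.mon K f' - Toric.mon K f ∈ quadCubic K x y z := by
  induction h with
  | refl => rw [sub_self]; exact Ideal.zero_mem _
  | @tail g g' _ h2 ih =>
    have h3 : Toric.mon K g' - Toric.mon K g ∈ quadCubic K x y z := by
      obtain ⟨w, a, b, a', b', hd, rfl, rfl⟩ := h2
      rw [Toric.mon_add, Toric.mon_add, mon_pair, mon_pair, ← mul_sub]
      apply Ideal.mul_mem_left
      rw [← neg_sub]
      apply neg_mem
      apply Ideal.subset_span
      exact Or.inl ⟨a, b, a', b', hd, rfl⟩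
    have := Ideal.add_mem _ h3 ih
    rwa [sub_add_sub_cancel] at this

theorem mon_nsmul {p : ℕ} (K : Type*) [Field K] (n : ℕ) (S : Finset (Ranking p)) :
    Toric.mon K (ballots (n • S.val)) = (∏ σ ∈ S, MvPolynomial.X σ) ^ n := by
  unfold Toric.mon ballots
  have h1 : ∀ σ : Ranking p, (MvPolynomial.X σ : MvPolynomial (Ranking p) K)
      ^ (Multiset.count σ (n • S.val)) = if σ ∈ S then MvPolynomial.X σ ^ n else 1 := by
    intro σ
    rw [Multiset.count_nsmul]
    split_ifs with h
    · rw [Multiset.count_eq_one_of_mem S.nodup h, mul_one]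
    · rw [Multiset.count_eq_zero_of_notMem h, mul_zero, pow_zero]
  rw [prod_congr rfl fun σ _ => h1 σ, ← prod_pow, prod_ite_mem, univ_inter]

theorem rich_nsmul {p : ℕ} {S : Finset (Ranking p)} (hS : TwoTransitive S) (n : ℕ) :
    Rich n (n • S.val) := by
  intro i j k l hij hkl
  obtain ⟨σ, hσ, h1⟩ := hS i j k l hij hkl
  have h2 : Multiset.replicate n σ ≤ n • S.val := by
    rw [Multiset.le_iff_count]
    intro τ
    rw [Multiset.count_nsmul, Multiset.count_replicate]
    split_ifs with h
    · subst h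
      rw [Multiset.count_eq_one_of_mem S.nodup hσ, mul_one]
    · exact Nat.zero_le _
  have h3 := Multiset.card_le_card (Multiset.filter_le_filter (fun σ => σ i = k ∧ σ j = l) h2)
  refine le_trans ?_ h3
  rw [Multiset.filter_eq_self.2, Multiset.card_replicate]
  intro a ha
  rw [Multiset.eq_of_mem_replicate ha]
  exact h1

theorem cubic_mem {p : ℕ} (K : Type*) [Field K] (w : Multiset (Ranking p)) (x y z : Fin p) :
    Toric.mon K (ballots w + side2 1 x y z) - Toric.mon K (ballots w + side1 1 x y z)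
      ∈ quadCubic K x y z := by
  unfold side1 side2
  rw [Toric.mon_add, Toric.mon_add, mon_three, mon_three, ← mul_sub]
  apply Ideal.mul_mem_left
  rw [← neg_sub]
  apply neg_mem
  apply Ideal.subset_span
  right
  rw [Set.mem_singleton_iff]
  simp only [one_mul]

theorem colon_one {p : ℕ} (hp : 4 ≤ p) (K : Type*) [Field K] {S : Finset (Ranking p)}
    (hS : TwoTransitive S) {x y z : Fin p} (hxy : x ≠ y)
    (hyz : y ≠ z) (hxz : x ≠ z) {P : MvPolynomial (Ranking p) K}
    (hP : P ∈ RingHom.ker (Toric.toricMap (Fin p) K)) :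
    (∏ σ ∈ S, MvPolynomial.X σ) ^ (150 * p ^ 2) * P ∈ quadCubic K x y z := by
  have hα : 4 ≤ Fintype.card (Fin p) := by rw [Fintype.card_fin]; exact hp
  refine mul_mem_of K ?_ hP
  intro f f' h
  have hs : summary f = summary f' := funext fun i => funext fun j => h i j
  have hcard : Multiset.card (ms f) = Multiset.card (ms f') := by
    rw [card_eq x, card_eq x, hs]
  have htot : ∀ i j, tot (ms f) i j = tot (ms f') i j := by
    intro i j; rw [tot_ms, tot_ms, hs]
  set W : Multiset (Ranking p) := (150 * p ^ 2) • S.val with hW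
  have hR : Rich ((Fintype.card (Fin p) + 1) * (96 * Fintype.card (Fin p) + 94)) W := by
    rw [Fintype.card_fin]
    exact (rich_nsmul hS _).mono (const1 hp)
  have e : ∀ g : Survey p, (∏ σ ∈ S, MvPolynomial.X σ) ^ (150 * p ^ 2) * Toric.mon K g
      = Toric.mon K (g + ballots W) := by
    intro g
    rw [hW, Toric.mon_add, mon_nsmul, mul_comm]
  rw [mul_sub, e, e]
  rcases rich_add hα 1 hxy hyz hxz hcard htot hR with k | ⟨w, k1, k2⟩
  · have := quad_mem K x y z (rt_quad k)
    rwa [bal_add, bal_add, bal_ms, bal_ms] at this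
  · have h1 := quad_mem K x y z (rt_quad k1)
    have h2 := quad_mem K x y z (rt_quad k2)
    rw [bal_add w, bal_add (ms f), bal_ms, val_three1 1 hxy hyz hxz] at h1
    rw [bal_add w, bal_add (ms f'), bal_ms, val_three2 1 hxy hyz hxz] at h2
    have := Ideal.add_mem _ (Ideal.add_mem _ h2 (cubic_mem K w x y z)) h1
    rwa [sub_add_sub_cancel, sub_add_sub_cancel] at this

theorem toric_X {p : ℕ} (K : Type*) [Field K] (a : Ranking p) :
    Toric.toricMap (Fin p) K (MvPolynomial.X a) = ∏ i, MvPolynomial.X (i, a i) := by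
  unfold Toric.toricMap
  rw [MvPolynomial.aeval_X]

theorem quadCubic_le {p : ℕ} (K : Type*) [Field K] {x y z : Fin p} (hxy : x ≠ y)
    (hyz : y ≠ z) (hxz : x ≠ z) :
    quadCubic K x y z ≤ RingHom.ker (Toric.toricMap (Fin p) K) := by
  unfold quadCubic
  rw [Ideal.span_le]
  rintro b (⟨a, a', c, d, hd, rfl⟩ | hb)
  · show _ ∈ RingHom.ker _
    rw [RingHom.mem_ker, map_sub, map_mul, map_mul, toric_X, toric_X, toric_X, toric_X,
      ← prod_mul_distrib, ← prod_mul_distrib, sub_eq_zero]
    refine prod_congr rfl fun i _ => ?_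
    rcases (up_iff _ _ _ _).1 (hd i) with h | h
    · rw [h.1, h.2]
    · rw [h.1, h.2, mul_comm]
  · rw [Set.mem_singleton_iff] at hb
    subst hb
    show _ ∈ RingHom.ker _
    rw [RingHom.mem_ker, map_sub, map_mul, map_mul, map_mul, map_mul, toric_X, toric_X, toric_X,
      toric_X, toric_X, toric_X, ← prod_mul_distrib, ← prod_mul_distrib, ← prod_mul_distrib,
      ← prod_mul_distrib, sub_eq_zero]
    refine prod_congr rfl fun i _ => ?_
    simp only [Perm.mul_apply, Perm.one_apply]
    by_cases h1 : i = x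
    · subst h1
      rw [swap_apply_of_ne_of_ne hxy hxz, swap_apply_left, swap_apply_of_ne_of_ne hxz hxy,
        swap_apply_left]
      ring
    by_cases h2 : i = y
    · subst h2
      rw [swap_apply_left, swap_apply_of_ne_of_ne (Ne.symm hxz) (Ne.symm hyz), swap_apply_right,
        swap_apply_right, swap_apply_right, swap_apply_of_ne_of_ne (Ne.symm hxy) hyz]
      ring
    by_cases h3 : i = z
    · subst h3
      rw [swap_apply_right, swap_apply_right, swap_apply_left,
        swap_apply_of_ne_of_ne (Ne.symm hxy) hyz,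
        swap_apply_of_ne_of_ne (Ne.symm hxz) (Ne.symm hyz), swap_apply_right]
      ring
    · rw [swap_apply_of_ne_of_ne h2 h3, swap_apply_of_ne_of_ne h1 h2,
        swap_apply_of_ne_of_ne h3 h2, swap_apply_of_ne_of_ne h1 h3]

theorem colon_rev {p : ℕ} (K : Type*) [Field K] {S : Finset (Ranking p)} {x y z : Fin p}
    (hxy : x ≠ y) (hyz : y ≠ z) (hxz : x ≠ z) {P : MvPolynomial (Ranking p) K} {N : ℕ}
    (h : (∏ σ ∈ S, MvPolynomial.X σ) ^ N * P ∈ quadCubic K x y z) :
    P ∈ RingHom.ker (Toric.toricMap (Fin p) K) := by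
  have h1 := quadCubic_le K hxy hyz hxz h
  rw [RingHom.mem_ker, map_mul, mul_eq_zero] at h1
  rcases h1 with h1 | h1
  · exfalso
    rw [map_pow] at h1
    have h0 := eq_zero_of_pow_eq_zero h1
    rw [map_prod, prod_eq_zero_iff] at h0
    obtain ⟨σ, -, h2⟩ := h0
    rw [toric_X, prod_eq_zero_iff] at h2
    obtain ⟨i, -, h3⟩ := h2
    exact MvPolynomial.X_ne_zero _ h3
  · exact h1

theorem colon_iff {p : ℕ} (hp : 4 ≤ p) (K : Type*) [Field K] {S : Finset (Ranking p)}
    (hS : TwoTransitive S) {x y z : Fin p} (hxy : x ≠ y)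
    (hyz : y ≠ z) (hxz : x ≠ z) (P : MvPolynomial (Ranking p) K) :
    P ∈ RingHom.ker (Toric.toricMap (Fin p) K) ↔
      (∏ σ ∈ S, MvPolynomial.X σ) ^ (150 * p ^ 2) * P ∈ quadCubic K x y z :=
  ⟨colon_one hp K hS hxy hyz hxz, colon_rev K hxy hyz hxz⟩

/-! ### First-order summaries do not suffice -/

theorem ms_bal {p : ℕ} (U : Multiset (Ranking p)) : ms (ballots U) = U := by
  apply cnt_inj
  intro σ
  rw [count_ms]; rfl

theorem sharp {p : ℕ} (hp : p.Prime) (h3 : 3 ≤ p) (n : ℕ) : ∃ f f' : Survey p,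
    summary f = summary f' ∧ (∀ i j, n ≤ summary f i j) ∧ odd f ≡ odd f' [MOD 2] ∧
    ¬ ReflTransGen Quadratic f f' := by
  have : Fact p.Prime := ⟨hp⟩
  set U := shs p (2 * (n + 1)) with hU
  set V := rfs p (2 * (n + 1)) with hV
  have tU : ∀ i j, (summary (ballots U) i j : ℤ) = (2 * (n + 1) : ℕ) := by
    intro i j; rw [← tot_ms, ms_bal, hU, shs_tot]
  have tV : ∀ i j, (summary (ballots V) i j : ℤ) = (2 * (n + 1) : ℕ) := by
    intro i j; rw [← tot_ms, ms_bal, hV, rfs_tot]
  refine ⟨ballots U, ballots V, ?_, ?_, ?_, ?_⟩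
  · funext i j
    have h1 := tU i j
    have h2 := tV i j
    omega
  · intro i j
    have h1 := tU i j
    omega
  · rw [par_iff, ms_bal, ms_bal]
    have e1 : sg U = 1 := sg_sum _ _ fun c _ => sg_even (n + 1) (sh c)
    have e2 : sg V = 1 := sg_sum _ _ fun c _ => sg_even (n + 1) (rf c)
    rw [e1, e2]
  · intro h
    have h1 := quad_rt h
    rw [ms_bal, ms_bal] at h1
    have h2 := shift_fixed (fun σ hσ => shs_mem hσ) h1
    exact rfs_ne h3 (by omega) h2

/-! ### Sets which produce all rankings -/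

theorem mem_ms {p : ℕ} (f : Survey p) (σ : Ranking p) : σ ∈ ms f ↔ f σ ≠ 0 := by
  rw [← Multiset.count_pos, count_ms, Nat.pos_iff_ne_zero]

theorem obt_iff {p : ℕ} {S : Finset (Ranking p)} {σ : Ranking p} :
    Obtainable S σ ↔ Ob (S : Set (Ranking p)) σ := by
  constructor
  · rintro ⟨f, f', h1, h2, h3⟩
    exact ⟨ms f, ms f', fun τ hτ => h1 τ ((mem_ms f τ).1 hτ), quad_rt h2, (mem_ms f' σ).2 h3⟩
  · rintro ⟨U, V, h1, h2, h3⟩
    refine ⟨ballots U, ballots V, fun τ hτ => ?_, rt_quad h2, ?_⟩
    · apply h1 τ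
      rw [← ms_bal U, mem_ms]
      exact hτ
    · rw [← mem_ms, ms_bal]
      exact h3

theorem bal_copies {p : ℕ} (N : ℕ) (S : Finset (Ranking p)) :
    ballots (N • S.val) = copies N S := by
  funext σ
  show Multiset.count σ (N • S.val) = if σ ∈ S then N else 0
  rw [Multiset.count_nsmul]
  split_ifs with h
  · rw [Multiset.count_eq_one_of_mem S.nodup h, mul_one]
  · rw [Multiset.count_eq_zero_of_notMem h, mul_zero]

theorem summary_eq {p : ℕ} {U V : Multiset (Ranking p)} (h : ∀ i j, tot U i j = tot V i j) :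
    summary (ballots U) = summary (ballots V) := by
  funext i j
  have h1 := h i j
  rw [← ms_bal U, ← ms_bal V, tot_ms, tot_ms] at h1
  exact_mod_cast h1

theorem gen_iff {p : ℕ} (hp : 4 ≤ p) {S : Finset (Ranking p)} (hS : Covering S) :
    (∀ σ, Obtainable S σ) ↔ ∃ N : ℕ, ∀ f f' : Survey p, summary f = summary f' →
      odd f ≡ odd f' [MOD 2] →
      ReflTransGen Quadratic (f + copies N S) (f' + copies N S) := by
  have hα : 4 ≤ Fintype.card (Fin p) := by rw [Fintype.card_fin]; exact hp
  have o : Fin p := ⟨0, by omega⟩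
  constructor
  · intro h
    obtain ⟨N, hN⟩ := Ob.catalyst hα (S := S) fun σ => obt_iff.1 (h σ)
    refine ⟨N, fun f f' hs ho => ?_⟩
    have hcard : Multiset.card (ms f) = Multiset.card (ms f') := by
      rw [card_eq o, card_eq o, hs]
    have htot : ∀ i j, tot (ms f) i j = tot (ms f') i j := by
      intro i j; rw [tot_ms, tot_ms, hs]
    have e1 : (⟨0, by omega⟩ : Fin p) ≠ ⟨1, by omega⟩ := by simp
    have e2 : (⟨1, by omega⟩ : Fin p) ≠ ⟨2, by omega⟩ := by simp
    have e3 : (⟨0, by omega⟩ : Fin p) ≠ ⟨2, by omega⟩ := by simp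
    rcases hN 1 e1 e2 e3 hcard htot with k | ⟨w, k1, k2⟩
    · have := rt_quad k
      rwa [bal_add, bal_add, bal_ms, bal_ms, bal_copies] at this
    · exfalso
      have m1 := am_sg k1
      have m2 := am_sg k2
      rw [sg_side w 1 e1 e2 e3, m2, sg_add, sg_add, (par_iff f f').1 ho] at m1
      exact units_ne_neg _ m1
  · rintro ⟨N, hN⟩ σ
    rw [obt_iff]
    refine Ob.of_catalyst (N := N) hS ?_ o σ
    intro U V _ htot hsg
    have h1 := quad_rt (hN (ballots U) (ballots V) (summary_eq htot) (by
      rw [par_iff, ms_bal, ms_bal]; exact hsg))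
    rwa [← bal_copies, ← bal_add, ← bal_add, ms_bal, ms_bal] at h1

theorem gen_ideal {p : ℕ} (hp : 4 ≤ p) {S : Finset (Ranking p)} (h : ∀ σ, Obtainable S σ) :
    ∃ N : ℕ, ∀ (K : Type*) [Field K] (x y z : Fin p), x ≠ y → y ≠ z → x ≠ z →
      ∀ P : MvPolynomial (Ranking p) K, P ∈ RingHom.ker (Toric.toricMap (Fin p) K) ↔
        (∏ σ ∈ S, MvPolynomial.X σ) ^ N * P ∈ quadCubic K x y z := by
  have hα : 4 ≤ Fintype.card (Fin p) := by rw [Fintype.card_fin]; exact hp
  obtain ⟨N, hN⟩ := Ob.catalyst hα (S := S) fun σ => obt_iff.1 (h σ)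
  refine ⟨N, fun K _ x y z hxy hyz hxz P => ⟨fun hP => ?_, fun hP => ?_⟩⟩
  · refine mul_mem_of K ?_ hP
    intro f f' hs
    have hs : summary f = summary f' := funext fun i => funext fun j => hs i j
    have hcard : Multiset.card (ms f) = Multiset.card (ms f') := by
      rw [card_eq x, card_eq x, hs]
    have htot : ∀ i j, tot (ms f) i j = tot (ms f') i j := by
      intro i j; rw [tot_ms, tot_ms, hs]
    have e : ∀ g : Survey p, (∏ σ ∈ S, MvPolynomial.X σ) ^ N * Toric.mon K g
        = Toric.mon K (g + ballots (N • S.val)) := by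
      intro g
      rw [Toric.mon_add, mon_nsmul, mul_comm]
    rw [mul_sub, e, e]
    rcases hN 1 hxy hyz hxz hcard htot with k | ⟨w, k1, k2⟩
    · have := quad_mem K x y z (rt_quad k)
      rwa [bal_add, bal_add, bal_ms, bal_ms] at this
    · have h1 := quad_mem K x y z (rt_quad k1)
      have h2 := quad_mem K x y z (rt_quad k2)
      rw [bal_add w, bal_add (ms f), bal_ms, val_three1 1 hxy hyz hxz] at h1
      rw [bal_add w, bal_add (ms f'), bal_ms, val_three2 1 hxy hyz hxz] at h2
      have := Ideal.add_mem _ (Ideal.add_mem _ h2 (cubic_mem K w x y z)) h1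
      rwa [sub_add_sub_cancel, sub_add_sub_cancel] at this
  · exact colon_rev K hxy hyz hxz hP

/-! ### Groups -/

theorem group_part {p : ℕ} (hp : 3 ≤ p) {G : Subgroup (Ranking p)} {S : Finset (Ranking p)}
    (hG : ∀ σ, σ ∈ S ↔ σ ∈ G) (hS : Covering S) :
    (∀ σ, Obtainable S σ) ↔ ¬ (p.Prime ∧ S.card = p) := by
  have e1 : (S : Set (Ranking p)) = G := by ext σ; exact hG σ
  have e2 : Nat.card G = S.card := by
    have h1 : (G : Set (Ranking p)).ncard = S.card := by rw [← e1, Set.ncard_coe_finset]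
    rw [← h1, ← Nat.card_coe_set_eq]
    rfl
  have h1 := group_iff (G := G) (fun x y => by
    obtain ⟨g, hg, h⟩ := hS x y
    exact ⟨g, (hG g).1 hg, h⟩) (by rw [Fintype.card_fin]; exact hp)
  rw [Fintype.card_fin, e2] at h1
  rw [← h1, ← e1]
  exact forall_congr' fun σ => obt_iff

theorem inj_of {p : ℕ} {S : Finset (Ranking p)} (hS : Covering S) (hc : S.card = p) (i : Fin p) :
    Set.InjOn (fun σ : Ranking p => σ i) S := by
  apply injOn_of_surjOn_of_card_le (t := univ)
  · intro σ _; simp
  · intro j _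
    obtain ⟨σ, hσ, h⟩ := hS i j
    exact ⟨σ, hσ, h⟩
  · rw [hc, card_univ, Fintype.card_fin]

theorem prod_latin {p : ℕ} {A : Type*} [CommMonoid A] {S : Finset (Ranking p)} (hS : Covering S)
    (hc : S.card = p) (i : Fin p) (τ : Ranking p) (f : Fin p → A) :
    ∏ σ ∈ S, f ((τ * σ) i) = ∏ j, f j := by
  rw [← Equiv.prod_comp τ]
  refine prod_nbij (fun σ => σ i) (fun σ _ => mem_univ _) (inj_of hS hc i) ?_ fun σ _ => rfl
  intro j _
  obtain ⟨σ, hσ, h⟩ := hS i j
  exact ⟨σ, hσ, h⟩

theorem other {p : ℕ} (hp : 4 ≤ p) (x y z : Fin p) : ∃ u, u ≠ x ∧ u ≠ y ∧ u ≠ z := by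
  by_contra h
  push Not at h
  have h1 : (univ : Finset (Fin p)) ⊆ {x, y, z} := by
    intro u _
    rw [mem_insert, mem_insert, mem_singleton]
    by_cases h1 : u = x
    · exact Or.inl h1
    by_cases h2 : u = y
    · exact Or.inr (Or.inl h2)
    · exact Or.inr (Or.inr (h u h1 h2))
  have h2 := card_le_card h1
  rw [card_univ, Fintype.card_fin] at h2
  have h3 := card_le_three (a := x) (b := y) (c := z)
  omega

theorem group_not {p : ℕ} (hp : 4 ≤ p) {G : Subgroup (Ranking p)} {S : Finset (Ranking p)}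
    (hG : ∀ σ, σ ∈ S ↔ σ ∈ G) (hS : Covering S) (hpr : p.Prime) (hc : S.card = p)
    (K : Type*) [Field K] {x y z : Fin p} (hxy : x ≠ y) (hyz : y ≠ z) (hxz : x ≠ z) (N : ℕ) :
    ∃ P : MvPolynomial (Ranking p) K, P ∈ RingHom.ker (Toric.toricMap (Fin p) K) ∧
        (∏ σ ∈ S, MvPolynomial.X σ) ^ N * P ∉ quadCubic K x y z := by
  have e1 : (S : Set (Ranking p)) = G := by ext σ; exact hG σ
  have e2 : Nat.card G = S.card := by
    have h1 : (G : Set (Ranking p)).ncard = S.card := by rw [← e1, Set.ncard_coe_finset]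
    rw [← h1, ← Nat.card_coe_set_eq]
    rfl
  have hG' : ∀ x y, ∃ g ∈ G, g x = y := fun x y => by
    obtain ⟨g, hg, h⟩ := hS x y
    exact ⟨g, (hG g).1 hg, h⟩
  have hone : (1 : Ranking p) ∈ S := (hG 1).2 G.one_mem
  have fix : ∀ g ∈ S, ∀ i, g i = i → g = 1 := fun g hg i hi =>
    inj_of hS hc i hg hone hi
  have rig : ∀ {a b a' b' : Ranking p}, a ∈ S → b ∈ S →
      (∀ i, ({a' i, b' i} : Multiset (Fin p)) = {a i, b i}) →
      (MvPolynomial.X a' * MvPolynomial.X b' : MvPolynomial (Ranking p) K)
        = MvPolynomial.X a * MvPolynomial.X b := by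
    intro a b a' b' ha hb hd
    have h1 := group_rigid hG' (by rw [e2, hc]; exact hpr) ((hG a).1 ha) ((hG b).1 hb)
      (a' := a') (b' := b') fun x y => sum_of_up (fun i => (up_iff _ _ _ _).1 (hd i)) x y
    rw [← mon_pair, ← mon_pair, ← bal_pair, ← bal_pair, h1]
  obtain ⟨τ, hτ⟩ : ∃ τ, τ ∉ S := by
    by_contra h
    push Not at h
    have h1 : S = univ := eq_univ_iff_forall.2 h
    rw [h1, card_univ, Fintype.card_perm, Fintype.card_fin] at hc
    have := Nat.lt_factorial_self (by omega : 3 ≤ p)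
    omega
  let φ : MvPolynomial (Ranking p) K →ₐ[K] MvPolynomial (Ranking p) K :=
    MvPolynomial.aeval fun σ => if σ ∈ S then MvPolynomial.X σ else 0
  have φ0 : ∀ {a : Ranking p}, a ∉ S → φ (MvPolynomial.X a) = 0 := by
    intro a ha
    simp only [φ, MvPolynomial.aeval_X, if_neg ha]
  have φ1 : ∀ {a : Ranking p}, a ∈ S → φ (MvPolynomial.X a) = MvPolynomial.X a := by
    intro a ha
    simp only [φ, MvPolynomial.aeval_X, if_pos ha]
  have φ2 : ∀ {a b : Ranking p}, ¬ (a ∈ S ∧ b ∈ S) →
      φ (MvPolynomial.X a * MvPolynomial.X b) = 0 := by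
    intro a b h
    rw [map_mul]
    by_cases ha : a ∈ S
    · have hb : b ∉ S := fun hb => h ⟨ha, hb⟩
      rw [φ0 hb, mul_zero]
    · rw [φ0 ha, zero_mul]
  have hJ : quadCubic K x y z ≤ RingHom.ker φ := by
    unfold quadCubic
    rw [Ideal.span_le]
    rintro b (⟨a, a', c, d, hd, rfl⟩ | hb)
    · show _ ∈ RingHom.ker _
      rw [RingHom.mem_ker]
      by_cases h1 : a ∈ S ∧ a' ∈ S
      · rw [rig h1.1 h1.2 hd, sub_self, map_zero]
      by_cases h2 : c ∈ S ∧ d ∈ S
      · rw [rig h2.1 h2.2 fun i => (hd i).symm, sub_self, map_zero]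
      · rw [map_sub, φ2 h1, φ2 h2, sub_zero]
    · rw [Set.mem_singleton_iff] at hb
      subst hb
      show _ ∈ RingHom.ker _
      have s1 : swap x y * swap y z ∉ S := by
        intro h
        obtain ⟨u, u1, u2, u3⟩ := other hp x y z
        have h1 := fix _ h u (by
          rw [Perm.mul_apply, swap_apply_of_ne_of_ne u2 u3, swap_apply_of_ne_of_ne u1 u2])
        have h2 : (swap x y * swap y z) y = y := by rw [h1]; rfl
        rw [Perm.mul_apply, swap_apply_left, swap_apply_of_ne_of_ne hxz.symm hyz.symm] at h2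
        exact hyz h2.symm
      have s2 : swap x y ∉ S := by
        intro h
        have h1 := fix _ h z (swap_apply_of_ne_of_ne hxz.symm hyz.symm)
        have h2 : (swap x y) x = x := by rw [h1]; rfl
        rw [swap_apply_left] at h2
        exact hxy h2.symm
      rw [RingHom.mem_ker, map_sub, map_mul, map_mul, map_mul, map_mul, φ0 s1, φ0 s2]
      ring
  refine ⟨∏ σ ∈ S, MvPolynomial.X σ - ∏ σ ∈ S, MvPolynomial.X (τ * σ), ?_, fun h => ?_⟩
  · have key : ∀ τ : Ranking p, Toric.toricMap (Fin p) K (∏ σ ∈ S, MvPolynomial.X (τ * σ))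
        = ∏ i : Fin p, ∏ j : Fin p, MvPolynomial.X (i, j) := by
      intro τ
      rw [map_prod, prod_congr rfl fun σ _ => toric_X K (τ * σ), prod_comm]
      exact prod_congr rfl fun i _ => prod_latin hS hc i τ fun j => MvPolynomial.X (i, j)
    have k1 := key 1
    simp only [one_mul] at k1
    rw [RingHom.mem_ker, map_sub, key, k1, sub_self]
  · have h1 := hJ h
    have hz : ∏ σ ∈ S, φ (MvPolynomial.X (τ * σ)) = 0 :=
      prod_eq_zero hone (by rw [mul_one]; exact φ0 hτ)
    rw [RingHom.mem_ker, map_mul, map_pow, map_sub, map_prod, map_prod,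
      prod_congr rfl fun σ hσ => φ1 hσ, hz, sub_zero, ← pow_succ] at h1
    have h2 := eq_zero_of_pow_eq_zero h1
    rw [prod_eq_zero_iff] at h2
    obtain ⟨σ, -, h3⟩ := h2
    exact MvPolynomial.X_ne_zero _ h3

theorem group_ideal {p : ℕ} (hp : 4 ≤ p) {G : Subgroup (Ranking p)} {S : Finset (Ranking p)}
    (hG : ∀ σ, σ ∈ S ↔ σ ∈ G) (hS : Covering S)
    (K : Type*) [Field K] {x y z : Fin p} (hxy : x ≠ y) (hyz : y ≠ z) (hxz : x ≠ z) :
    (∃ N : ℕ, ∀ P : MvPolynomial (Ranking p) K, P ∈ RingHom.ker (Toric.toricMap (Fin p) K) ↔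
        (∏ σ ∈ S, MvPolynomial.X σ) ^ N * P ∈ quadCubic K x y z) ↔
      ¬ (p.Prime ∧ S.card = p) := by
  constructor
  · rintro ⟨N, hN⟩ ⟨hpr, hc⟩
    obtain ⟨P, h1, h2⟩ := group_not hp hG hS hpr hc K hxy hyz hxz N
    exact h2 ((hN P).1 h1)
  · intro h
    obtain ⟨N, hN⟩ := gen_ideal hp ((group_part (by omega) hG hS).2 h)
    exact ⟨N, fun P => hN K x y z hxy hyz hxz P⟩

/-- (1) Let `4 ≤ p` and let `f` and `f'` be surveys with the same first-order summary in which any
two candidates take any two positions on at least `200 p ^ 7` ballots. Then `f` and `f'` are joined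
by quadratic moves if and only if the numbers of their odd ballots have the same parity; otherwise
quadratic moves, one cubic move, which can be prescribed, and quadratic moves lead from `f` to
`f'`. (2) Large entries of the first-order summary do not suffice. (3) For every 2-transitive set
`S` of rankings the toric ideal is the colon ideal of the ideal of all quadratic binomials and one
cubic binomial by the power `150 p ^ 2` of the product of the variables of `S`. (4) Let `S` be a
set of rankings in which every candidate takes every position. Quadratic moves can produce every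
ranking from members of `S` if and only if for some `N` they join `f` and `f'` with `N` copies of
`S` added whenever `f` and `f'` have the same first-order summary and parity. (5) If `S` is a
transitive group then this holds if and only if `S` is not of prime order `p`, and the toric ideal
is a colon ideal by a power of the product of the variables of `S` if and only if `S` is not of
prime order `p`. -/
theorem result :
    (∀ p : ℕ, 4 ≤ p → ∀ f f' : Survey p, summary f = summary f' →
      SecondOrder (200 * p ^ 7) f → SecondOrder (200 * p ^ 7) f' →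
      (ReflTransGen Quadratic f f' ↔ odd f ≡ odd f' [MOD 2]) ∧
      (¬ odd f ≡ odd f' [MOD 2] → ∀ (ρ : Ranking p) (x y z : Fin p), x ≠ y → y ≠ z → x ≠ z →
        ∃ w : Survey p, ReflTransGen Quadratic f (w + side1 ρ x y z) ∧
          ReflTransGen Quadratic (w + side2 ρ x y z) f')) ∧
    (∀ p : ℕ, p.Prime → 3 ≤ p → ∀ n : ℕ, ∃ f f' : Survey p,
      summary f = summary f' ∧ (∀ i j, n ≤ summary f i j) ∧ odd f ≡ odd f' [MOD 2] ∧
      ¬ ReflTransGen Quadratic f f') ∧
    (∀ p : ℕ, 4 ≤ p → ∀ (K : Type*) [Field K] (S : Finset (Ranking p)), TwoTransitive S →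
      ∀ x y z : Fin p, x ≠ y → y ≠ z → x ≠ z → ∀ P : MvPolynomial (Ranking p) K,
        P ∈ RingHom.ker (Toric.toricMap (Fin p) K) ↔
          (∏ σ ∈ S, MvPolynomial.X σ) ^ (150 * p ^ 2) * P ∈ quadCubic K x y z) ∧
    (∀ p : ℕ, 4 ≤ p → ∀ S : Finset (Ranking p), Covering S →
      ((∀ σ, Obtainable S σ) ↔ ∃ N : ℕ, ∀ f f' : Survey p, summary f = summary f' →
        odd f ≡ odd f' [MOD 2] →
        ReflTransGen Quadratic (f + copies N S) (f' + copies N S))) ∧
    (∀ p : ℕ, 4 ≤ p → ∀ (G : Subgroup (Ranking p)) (S : Finset (Ranking p)),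
      (∀ σ, σ ∈ S ↔ σ ∈ G) → Covering S →
      ((∀ σ, Obtainable S σ) ↔ ¬ (p.Prime ∧ S.card = p)) ∧
      ∀ (K : Type*) [Field K] (x y z : Fin p), x ≠ y → y ≠ z → x ≠ z →
        ((∃ N : ℕ, ∀ P : MvPolynomial (Ranking p) K,
          P ∈ RingHom.ker (Toric.toricMap (Fin p) K) ↔
            (∏ σ ∈ S, MvPolynomial.X σ) ^ N * P ∈ quadCubic K x y z) ↔
          ¬ (p.Prime ∧ S.card = p))) := by
  refine ⟨fun p hp f f' h hf hf' => second_part hp h hf hf',
    fun p hp h3 n => sharp hp h3 n,
    fun p hp K _ S hS x y z hxy hyz hxz P => colon_iff hp K hS hxy hyz hxz P,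
    fun p hp S hS => gen_iff hp hS,
    fun p hp G S hG hS => ⟨group_part (by omega) hG hS,
      fun K _ x y z hxy hyz hxz => group_ideal hp hG hS K hxy hyz hxz⟩⟩

end Pool.Agent.Results.MP_697f4c_co.SecondOrder
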