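import Pool.Agent.Work.MP_697f4c_co.Growth

/-! # Lower bounds for the number of steps between surveys with the same summary (MP_697f4c_co) -/

namespace Pool.Agent.Results.MP_697f4c_co.StepLower

open Finset Equiv

/-- A survey on `p` candidates: `f σ` voters gave the ranking `σ`. -/
abbrev Survey (p : ℕ) := Perm (Fin p) → ℕ

/-- The number of voters. -/
def voters {p : ℕ} (f : Survey p) : ℕ := ∑ σ : Perm (Fin p), f σ

/-- The first-order summary. -/
def summary {p : ℕ} (f : Survey p) (i j : Fin p) : ℕ :=
  ∑ σ : Perm (Fin p), if σ i = j then f σ else 0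

/-- There is a path of at most `t` steps of the relation `R` from `f` to `f'`. -/
def Joined {p : ℕ} (R : Survey p → Survey p → Prop) (t : ℕ) (f f' : Survey p) : Prop :=
  ∃ j ≤ t, ∃ F : ℕ → Survey p, F 0 = f ∧ F j = f' ∧ ∀ s < j, R (F s) (F (s + 1))

/-- The difference of `f` and `f'` is a move of degree at most `D`. -/
def DegreeStep {p : ℕ} (D : ℕ) (f f' : Survey p) : Prop :=
  summary f = summary f' ∧ ∑ σ : Perm (Fin p), |(f' σ : ℤ) - f σ| ≤ 2 * D

/-- (1) Let `R` be a relation between surveys on `p` candidates that preserves the first-order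
summary. If every survey with `N` voters has at most `K` successors and any two surveys with `N`
voters and the same summary are joined by at most `t` steps, then
`C(p! + N - 1, N) ≤ C(p + N - 1, N) ^ p * (K + 1) ^ t`.
(2) Hence, if `N = p ≥ 2048` is even and `K + 1 ≤ p ^ c`, then `t ≥ p ^ 2 / (4 c)`.
(3) If any two surveys with `N ≥ D` voters and the same summary are joined by at most `t` moves of
degree at most `D`, then `C(p! + N - 1, N) ≤ C(p + N - 1, N) ^ p * (N ^ D * D! ^ p + 1) ^ t`.
(4) Hence, for all `D` and `C` there are `p` and two surveys on `p` candidates with `p` voters and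
the same summary which are not joined by at most `C p` moves of degree at most `D`. -/
theorem result :
    (∀ (p N K t : ℕ) (R : Survey p → Survey p → Prop), 1 ≤ p →
      (∀ f f', R f f' → summary f = summary f') →
      (∀ f, voters f = N → {f' | R f f'}.Finite ∧ {f' | R f f'}.ncard ≤ K) →
      (∀ f f', voters f = N → summary f = summary f' → Joined R t f f') →
      (p.factorial + N - 1).choose N ≤ (p + N - 1).choose N ^ p * (K + 1) ^ t) ∧
    (∀ (m K c t : ℕ) (R : Survey (2 * m) → Survey (2 * m) → Prop), 1024 ≤ m →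
      (∀ f f', R f f' → summary f = summary f') →
      (∀ f, voters f = 2 * m → {f' | R f f'}.Finite ∧ {f' | R f f'}.ncard ≤ K) →
      (∀ f f', voters f = 2 * m → summary f = summary f' → Joined R t f f') →
      K + 1 ≤ (2 * m) ^ c → (2 * m) ^ 2 ≤ 4 * c * t) ∧
    (∀ p N D t : ℕ, 1 ≤ p → D ≤ N →
      (∀ f f' : Survey p, voters f = N → summary f = summary f' →
        Joined (DegreeStep D) t f f') →
      (p.factorial + N - 1).choose N
        ≤ (p + N - 1).choose N ^ p * (N ^ D * D.factorial ^ p + 1) ^ t) ∧
    ∀ D C : ℕ, ∃ p : ℕ, 1 ≤ p ∧ ∃ f f' : Survey p, voters f = p ∧ summary f = summary f' ∧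
      ¬ Joined (DegreeStep D) (C * p) f f' := by
  have h1 : ∀ (p N K t : ℕ) (R : Survey p → Survey p → Prop), 1 ≤ p →
      (∀ f f', R f f' → summary f = summary f') →
      (∀ f, voters f = N → {f' | R f f'}.Finite ∧ {f' | R f f'}.ncard ≤ K) →
      (∀ f f', voters f = N → summary f = summary f' → Joined R t f f') →
      (p.factorial + N - 1).choose N ≤ (p + N - 1).choose N ^ p * (K + 1) ^ t := by
    intro p N K t R hp hR hK ht
    have : Nonempty (Fin p) := ⟨⟨0, hp⟩⟩
    have h := Pool.Agent.Work.MP_697f4c_co.entropy R N K t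
      (fun f f' hf i j => congrFun (congrFun (hR f f' hf) i) j)
      (fun f hf => by
        obtain ⟨h1, h2⟩ := hK f hf
        refine ⟨h1.toFinset, ?_, fun f' hf' => h1.mem_toFinset.mpr hf'⟩
        rwa [← Set.ncard_eq_toFinset_card _ h1])
      (fun f f' hf hs => ht f f' hf (funext fun i => funext fun j => hs i j))
    rwa [Fintype.card_fin] at h
  have h3 : ∀ p N D t : ℕ, 1 ≤ p → D ≤ N →
      (∀ f f' : Survey p, voters f = N → summary f = summary f' →
        Joined (DegreeStep D) t f f') →
      (p.factorial + N - 1).choose N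
        ≤ (p + N - 1).choose N ^ p * (N ^ D * D.factorial ^ p + 1) ^ t := by
    intro p N D t hp hD ht
    have : Nonempty (Fin p) := ⟨⟨0, hp⟩⟩
    have h := Pool.Agent.Work.MP_697f4c_co.entropy_degree (X := Fin p) D N t hD
      (fun f f' hf hs => by
        obtain ⟨j, hj, F, h0, hF, hst⟩ := ht f f' hf (funext fun i => funext fun j => hs i j)
        exact ⟨j, hj, F, h0, hF, fun s hsj => ⟨fun i k =>
          congrFun (congrFun (hst s hsj).1 i) k, (hst s hsj).2⟩⟩)
    rwa [Fintype.card_fin] at h
  refine ⟨h1, ?_, h3, ?_⟩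
  · intro m K c t R hm hR hK ht hKc
    exact Pool.Agent.Work.MP_697f4c_co.poly_family m c t K hm hKc
      (h1 (2 * m) (2 * m) K t R (by omega) hR hK ht)
  · intro D C
    obtain ⟨p, hp, hD, hlt⟩ := Pool.Agent.Work.MP_697f4c_co.not_linear D C
    refine ⟨p, hp, ?_⟩
    by_contra hcon
    push Not at hcon
    have h := h3 p p D (C * p) hp hD fun f f' hf hs => hcon f f' hf hs
    exact absurd hlt (not_lt.mpr h)

end Pool.Agent.Results.MP_697f4c_co.StepLower
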